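import Pool.Agent.W_MP_ef54cf_lc.Meas

/-!
Assembly of the isomorphism between Turing equivalence and the orbit equivalence relation.
-/

open Set Function

namespace Pool.Agent.W_MP_ef54cf_lc

open OC

/-- The correspondence of classes. -/
def L (x : ℕ → Bool) (y : ℕ → ℕ) : Prop :=
  (x ∉ Z ∧ InK y ∧ TE (dec y) x) ∨
  (∃ u, ¬ InK u ∧ TE x (J 0 u) ∧ E0 y u) ∨
  (∃ n u, ¬ InK u ∧ TE x (J (n + 1) u) ∧ InK y ∧ TE (dec y) (J n u))

theorem rel_of_InK {y w : ℕ → ℕ} (hy : InK y) (h : Rel y w) : InK w ∧ TE (dec y) (dec w) := by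
  rcases h with h | ⟨-, h2, h3⟩
  · exact ⟨hy.congr h, TE.of_E0 h.dec⟩
  · exact ⟨h2, h3⟩

theorem rel_of_not_InK {y w : ℕ → ℕ} (hy : ¬ InK y) (h : Rel y w) : E0 y w ∧ ¬ InK w := by
  rcases h with h | ⟨h1, -, -⟩
  · exact ⟨h, fun hw => hy (hw.congr h.symm)⟩
  · exact absurd h1 hy

theorem mem_Z_J {n : ℕ} {u : ℕ → ℕ} (hu : ¬ InK u) : J n u ∈ Z := ⟨n, u, hu, TE.refl _⟩

theorem eq_of_J_TE {m n : ℕ} {u v : ℕ → ℕ} (h : TE (J m u) (J n v)) : m = n ∧ E0 u v :=
  eq_of_J h.1

theorem J_TE_iff {m n : ℕ} {u v : ℕ → ℕ} : TE (J m u) (J n v) ↔ m = n ∧ E0 u v := by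
  constructor
  · exact eq_of_J_TE
  · rintro ⟨rfl, h⟩
    exact J_TE m h

theorem L_left {x v : ℕ → Bool} {y : ℕ → ℕ} (h : TE x v) (hL : L x y) : L v y := by
  rcases hL with ⟨h1, h2, h3⟩ | ⟨u, h1, h2, h3⟩ | ⟨n, u, h1, h2, h3, h4⟩
  · exact Or.inl ⟨fun hv => h1 (Z_congr h.symm hv), h2, h3.trans h⟩
  · exact Or.inr (Or.inl ⟨u, h1, h.symm.trans h2, h3⟩)
  · exact Or.inr (Or.inr ⟨n, u, h1, h.symm.trans h2, h3, h4⟩)

theorem L_right {x : ℕ → Bool} {y w : ℕ → ℕ} (h : Rel y w) (hL : L x y) : L x w := by
  rcases hL with ⟨h1, h2, h3⟩ | ⟨u, h1, h2, h3⟩ | ⟨n, u, h1, h2, h3, h4⟩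
  · obtain ⟨h4, h5⟩ := rel_of_InK h2 h
    exact Or.inl ⟨h1, h4, h5.symm.trans h3⟩
  · have hy : ¬ InK y := fun hy => h1 (hy.congr h3)
    obtain ⟨h4, h5⟩ := rel_of_not_InK hy h
    exact Or.inr (Or.inl ⟨u, h1, h2, h4.symm.trans h3⟩)
  · obtain ⟨h5, h6⟩ := rel_of_InK h3 h
    exact Or.inr (Or.inr ⟨n, u, h1, h2, h5, h6.symm.trans h4⟩)

theorem L_iff {x v : ℕ → Bool} {y w : ℕ → ℕ} (h : L x y) (h' : L v w) : TE x v ↔ Rel y w := by
  rcases h with ⟨h1, h2, h3⟩ | ⟨u, h1, h2, h3⟩ | ⟨n, u, h1, h2, h3, h4⟩
  · rcases h' with ⟨h1', h2', h3'⟩ | ⟨u', h1', h2', h3'⟩ | ⟨n', u', h1', h2', h3', h4'⟩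
    · constructor
      · intro ht
        exact Or.inr ⟨h2, h2', (h3.trans ht).trans h3'.symm⟩
      · intro hr
        exact (h3.symm.trans (rel_of_InK h2 hr).2).trans h3'
    · constructor
      · intro ht
        exact absurd (Z_congr ht.symm ⟨0, u', h1', h2'⟩) h1
      · intro hr
        have hw : InK w := (rel_of_InK h2 hr).1
        exact absurd (hw.congr h3') h1'
    · constructor
      · intro ht
        exact absurd (Z_congr ht.symm ⟨n' + 1, u', h1', h2'⟩) h1
      · intro hr
        have hd := (rel_of_InK h2 hr).2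
        have : TE x (J n' u') := (h3.symm.trans hd).trans h4'
        exact absurd ⟨n', u', h1', this⟩ h1
  · have hy : ¬ InK y := fun hy => h1 (hy.congr h3)
    rcases h' with ⟨h1', h2', h3'⟩ | ⟨u', h1', h2', h3'⟩ | ⟨n', u', h1', h2', h3', h4'⟩
    · constructor
      · intro ht
        exact absurd (Z_congr ht ⟨0, u, h1, h2⟩) h1'
      · intro hr
        exact absurd h2' (rel_of_not_InK hy hr).2
    · constructor
      · intro ht
        have h4 : TE (J 0 u) (J 0 u') := (h2.symm.trans ht).trans h2'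
        exact Or.inl ((h3.trans (eq_of_J_TE h4).2).trans h3'.symm)
      · intro hr
        have h4 : E0 u u' := (h3.symm.trans (rel_of_not_InK hy hr).1).trans h3'
        exact (h2.trans (J_TE 0 h4)).trans h2'.symm
    · constructor
      · intro ht
        have h4 : TE (J 0 u) (J (n' + 1) u') := (h2.symm.trans ht).trans h2'
        exact absurd (eq_of_J_TE h4).1 (by omega)
      · intro hr
        exact absurd h3' (rel_of_not_InK hy hr).2
  · rcases h' with ⟨h1', h2', h3'⟩ | ⟨u', h1', h2', h3'⟩ | ⟨n', u', h1', h2', h3', h4'⟩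
    · constructor
      · intro ht
        exact absurd (Z_congr ht ⟨n + 1, u, h1, h2⟩) h1'
      · intro hr
        have hd := (rel_of_InK h3 hr).2
        have : TE v (J n u) := (h3'.symm.trans hd.symm).trans h4
        exact absurd ⟨n, u, h1, this⟩ h1'
    · constructor
      · intro ht
        have h5 : TE (J (n + 1) u) (J 0 u') := (h2.symm.trans ht).trans h2'
        exact absurd (eq_of_J_TE h5).1 (by omega)
      · intro hr
        have hw : InK w := (rel_of_InK h3 hr).1
        exact absurd (hw.congr h3') h1'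
    · constructor
      · intro ht
        have h5 : TE (J (n + 1) u) (J (n' + 1) u') := (h2.symm.trans ht).trans h2'
        obtain ⟨h6, h7⟩ := eq_of_J_TE h5
        have h8 : n = n' := by omega
        subst h8
        exact Or.inr ⟨h3, h3', (h4.trans (J_TE n h7)).trans h4'.symm⟩
      · intro hr
        have hd := (rel_of_InK h3 hr).2
        have h5 : TE (J n u) (J n' u') := (h4.symm.trans hd).trans h4'
        obtain ⟨h6, h7⟩ := eq_of_J_TE h5
        subst h6
        exact (h2.trans (J_TE (n + 1) h7)).trans h2'.symm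

/-- Padding in Cantor space. -/
def padB (n : ℕ) (x : ℕ → Bool) : ℕ → Bool :=
  fun i => if i % 2 = 0 then x (i / 2) else decide (i / 2 = n)

theorem measurable_padB (n : ℕ) : Measurable (padB n) := by
  refine measurable_pi_lambda _ fun i => ?_
  unfold padB
  by_cases h : i % 2 = 0
  · simp only [h, if_true]
    exact measurable_pi_apply _
  · simp only [h, if_false]
    exact measurable_const

theorem padB_inj {n m : ℕ} {x v : ℕ → Bool} (h : padB n x = padB m v) : n = m ∧ x = v := by
  constructor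
  · have := congrFun h (2 * n + 1)
    unfold padB at this
    have h1 : (2 * n + 1) % 2 ≠ 0 := by omega
    have h2 : (2 * n + 1) / 2 = n := by omega
    simp only [h1, if_false, h2, decide_true] at this
    exact of_decide_eq_true this.symm
  · funext i
    have := congrFun h (2 * i)
    unfold padB at this
    have h1 : (2 * i) % 2 = 0 := by omega
    have h2 : (2 * i) / 2 = i := by omega
    simp only [h1, if_true, h2] at this
    exact this

theorem TE_padB (n : ℕ) (x : ℕ → Bool) : TE x (padB n x) := by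
  constructor
  · have h1 : TR (fun i => nat (padB n x) (2 * i)) (nat (padB n x)) :=
      TR.comp (TR.refl _) (TR.of_computable
        (Primrec.nat_mul.comp (Primrec.const 2) Primrec.id).to_comp _)
    have h2 : (fun i => nat (padB n x) (2 * i)) = nat x := by
      funext i
      unfold nat padB
      have h1 : (2 * i) % 2 = 0 := by omega
      have h2 : (2 * i) / 2 = i := by omega
      simp only [h1, if_true, h2]
    rw [h2] at h1
    exact h1
  · let F : ℕ → ℕ → ℕ := fun i b => if i % 2 = 0 then b else if i / 2 = n then 1 else 0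
    have hF : Computable₂ F := by
      have e1 : PrimrecPred (fun q : ℕ × ℕ => q.1 % 2 = 0) :=
        Primrec.eq.comp (Primrec.nat_mod.comp Primrec.fst (Primrec.const 2)) (Primrec.const 0)
      have e2 : PrimrecPred (fun q : ℕ × ℕ => q.1 / 2 = n) :=
        Primrec.eq.comp (Primrec.nat_div.comp Primrec.fst (Primrec.const 2)) (Primrec.const n)
      exact (Primrec.ite e1 Primrec.snd (Primrec.ite e2 (Primrec.const 1)
        (Primrec.const 0))).to_comp
    have h0 : TR (fun i => nat x (i / 2)) (nat x) :=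
      TR.comp (TR.refl _) (TR.of_computable
        (Primrec.nat_div.comp Primrec.id (Primrec.const 2)).to_comp _)
    have h1 := TR.comp₂ hF (TR.of_computable Computable.id (nat x)) h0
    have h2 : (fun i => F (id i) (nat x (i / 2))) = nat (padB n x) := by
      funext i
      show (if i % 2 = 0 then nat x (i / 2) else if i / 2 = n then 1 else 0) = nat (padB n x) i
      unfold nat padB
      by_cases h : i % 2 = 0
      · simp only [h, if_true]
      · simp only [h, if_false]
        by_cases h' : i / 2 = n <;> simp [h']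
    rw [h2] at h1
    exact h1

/-- Padding in Baire space. -/
def padN (n : ℕ) (y : ℕ → ℕ) : ℕ → ℕ := fun i => if i = 0 then Nat.pair n (y 0) else y i

theorem measurable_padN (n : ℕ) : Measurable (padN n) := by
  refine measurable_pi_lambda _ fun i => ?_
  unfold padN
  by_cases h : i = 0
  · simp only [h, if_true]
    have h2 : Measurable (fun k : ℕ => Nat.pair n k) := measurable_of_countable _
    exact h2.comp (measurable_pi_apply 0)
  · simp only [h, if_false]
    exact measurable_pi_apply _

theorem padN_inj {n m : ℕ} {y w : ℕ → ℕ} (h : padN n y = padN m w) : n = m ∧ y = w := by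
  have h0 := congrFun h 0
  unfold padN at h0
  simp only [if_true] at h0
  obtain ⟨h1, h2⟩ := Nat.pair_eq_pair.mp h0
  refine ⟨h1, ?_⟩
  funext i
  by_cases hi : i = 0
  · rw [hi]
    exact h2
  · have := congrFun h i
    unfold padN at this
    simp only [hi, if_false] at this
    exact this

theorem rel_padN (n : ℕ) (y : ℕ → ℕ) : Rel y (padN n y) := by
  refine Or.inl ⟨1, fun i hi => ?_⟩
  unfold padN
  rw [if_neg (by omega)]

theorem measurable_J_comp {α : Type} [MeasurableSpace α] {f : α → ℕ} {g : α → (ℕ → ℕ)}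
    (hf : Measurable f) (hg : Measurable g) : Measurable (fun x => J (f x) (g x)) := by
  have hJ : Measurable (fun q : ℕ × (ℕ → ℕ) => J q.1 q.2) :=
    measurable_from_prod_countable_right fun n => measurable_J n
  exact hJ.comp (hf.prodMk hg)

/-- The isomorphism. -/
theorem exists_Phi : ∃ Φ : (ℕ → Bool) ≃ᵐ (ℕ → ℕ), ∀ x, L x (Φ x) := by
  classical
  obtain ⟨nn, uu, hnn, huu, hch⟩ := exists_choice
  obtain ⟨ga, hga⟩ := exists_surjective_nat Gam
  -- the selector from Cantor space to Baire space
  let a : (ℕ → Bool) → (ℕ → ℕ) := fun x =>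
    if x ∈ Z then (if nn x = 0 then uu x else kk (J (nn x - 1) (uu x))) else kk x
  have ha : Measurable a := by
    refine Measurable.ite measurableSet_Z ?_ measurable_kk
    refine Measurable.ite (hnn (measurableSet_singleton 0)) huu ?_
    have h2 : Measurable (fun x : ℕ → Bool => nn x - 1) :=
      (measurable_of_countable (fun k : ℕ => k - 1)).comp hnn
    exact measurable_kk.comp (measurable_J_comp h2 huu)
  have hLa : ∀ x, L x (a x) := by
    intro x
    by_cases hx : x ∈ Z
    · obtain ⟨h1, h2⟩ := hch x hx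
      rcases hn : nn x with _ | n
      · have : a x = uu x := by simp [a, hx, hn]
        rw [this]
        rw [hn] at h2
        exact Or.inr (Or.inl ⟨uu x, h1, h2, E0.refl _⟩)
      · have : a x = kk (J n (uu x)) := by simp [a, hx, hn]
        rw [this]
        rw [hn] at h2
        refine Or.inr (Or.inr ⟨n, uu x, h1, h2, InK.kk _, ?_⟩)
        rw [dec_kk]
        exact TE.refl _
    · have : a x = kk x := by simp [a, hx]
      rw [this]
      refine Or.inl ⟨hx, InK.kk _, ?_⟩
      rw [dec_kk]
      exact TE.refl _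
  -- the selector in the other direction
  let b : (ℕ → ℕ) → (ℕ → Bool) := fun y =>
    if InK y then (if dec y ∈ Z then J (nn (dec y) + 1) (uu (dec y)) else dec y) else J 0 y
  have hb : Measurable b := by
    refine Measurable.ite measurableSet_InK ?_ (measurable_J 0)
    refine Measurable.ite (measurable_dec measurableSet_Z) ?_ measurable_dec
    have h1 : Measurable (fun y : ℕ → ℕ => nn (dec y)) := hnn.comp measurable_dec
    have h2 : Measurable (fun y : ℕ → ℕ => nn (dec y) + 1) :=
      (measurable_of_countable (fun k : ℕ => k + 1)).comp h1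
    have h3 : Measurable (fun y : ℕ → ℕ => uu (dec y)) := huu.comp measurable_dec
    exact measurable_J_comp h2 h3
  have hLb : ∀ y, L (b y) y := by
    intro y
    by_cases hy : InK y
    · by_cases hd : dec y ∈ Z
      · obtain ⟨h1, h2⟩ := hch _ hd
        have : b y = J (nn (dec y) + 1) (uu (dec y)) := by simp [b, hy, hd]
        rw [this]
        exact Or.inr (Or.inr ⟨nn (dec y), uu (dec y), h1, TE.refl _, hy, h2⟩)
      · have : b y = dec y := by simp [b, hy, hd]
        rw [this]
        exact Or.inl ⟨hd, hy, TE.refl _⟩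
    · have : b y = J 0 y := by simp [b, hy]
      rw [this]
      exact Or.inr (Or.inl ⟨y, hy, TE.refl _, E0.refl _⟩)
  exact exists_iso TE Rel TE.refl Rel.refl SS measurable_SS (fun x v h => exists_SS h)
    (fun n y => act (ga n) y) (fun n => (continuous_act (ga n)).measurable)
    (fun y w h => by
      obtain ⟨γ, hγ⟩ := orbit_iff.mpr h
      obtain ⟨n, hn⟩ := hga γ
      exact ⟨n, by simp only [hn, hγ]⟩)
    padB measurable_padB (fun n m x v h => padB_inj h) TE_padB
    padN measurable_padN (fun n m y w h => padN_inj h) rel_padN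
    L (fun x y v w h h' => L_iff h h') (fun x v y h h' => L_left h h')
    (fun x y w h h' => L_right h h') a ha hLa b hb hLb

/-- The base of the cone. -/
noncomputable def zz : ℕ → Bool := fun i =>
  if i % 2 = 0 then J 0 (fun _ => 0) (i / 2) else J 0 (fun _ => 1) (i / 2)

theorem TR_zz_left : TR (nat (J 0 (fun _ => 0))) (nat zz) := by
  have h1 : TR (fun i => nat zz (2 * i)) (nat zz) :=
    TR.comp (TR.refl _) (TR.of_computable
      (Primrec.nat_mul.comp (Primrec.const 2) Primrec.id).to_comp _)
  have h2 : (fun i => nat zz (2 * i)) = nat (J 0 (fun _ => 0)) := by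
    funext i
    unfold nat zz
    have h1 : (2 * i) % 2 = 0 := by omega
    have h2 : (2 * i) / 2 = i := by omega
    simp only [h1, if_true, h2]
  rw [h2] at h1
  exact h1

theorem TR_zz_right : TR (nat (J 0 (fun _ => 1))) (nat zz) := by
  have h1 : TR (fun i => nat zz (2 * i + 1)) (nat zz) :=
    TR.comp (TR.refl _) (TR.of_computable
      (Primrec.succ.comp (Primrec.nat_mul.comp (Primrec.const 2) Primrec.id)).to_comp _)
  have h2 : (fun i => nat zz (2 * i + 1)) = nat (J 0 (fun _ => 1)) := by
    funext i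
    unfold nat zz
    have h1 : (2 * i + 1) % 2 ≠ 0 := by omega
    have h2 : (2 * i + 1) / 2 = i := by omega
    simp only [h1, if_false, h2]
  rw [h2] at h1
  exact h1

theorem not_mem_Z_of_cone {x : ℕ → Bool} (h : TR (nat zz) (nat x)) : x ∉ Z := by
  rintro ⟨n, u, -, h2⟩
  have h3 := eq_of_J ((TR_zz_left.trans h).trans h2.1)
  have h4 := eq_of_J ((TR_zz_right.trans h).trans h2.1)
  obtain ⟨N, hN⟩ := h3.2.trans h4.2.symm
  have := hN N le_rfl
  simp at this

theorem L_of_cone {x : ℕ → Bool} {y : ℕ → ℕ} (hx : x ∉ Z) (h : L x y) :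
    InK y ∧ TE (dec y) x := by
  rcases h with ⟨-, h2, h3⟩ | ⟨u, h1, h2, h3⟩ | ⟨n, u, h1, h2, h3, h4⟩
  · exact ⟨h2, h3⟩
  · exact absurd ⟨0, u, h1, h2⟩ hx
  · exact absurd ⟨n + 1, u, h1, h2⟩ hx

theorem jump_of_cone {x : ℕ → Bool} {y : ℕ → ℕ} (hy : InK y) (h : TE (dec y) x) :
    TR y (chi (nat x)) ∧ TR (chi (nat x)) y := by
  obtain ⟨w, hw⟩ := hy
  have h1 : TE w x := by
    have := TE.of_E0 hw.dec
    rw [dec_kk] at this
    exact this.symm.trans h
  constructor
  · exact ((TR.of_E0 hw).trans (TR_kk_chi w)).trans (TR.chi h1.1)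
  · exact ((TR.chi h1.2).trans (TR_chi_kk w)).trans (TR.of_E0 hw.symm)

end Pool.Agent.W_MP_ef54cf_lc
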