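import Pool.Agent.W_MP_ef54cf_lc.Graph

/-!
The continuous action of a countable group on Baire space and its orbit equivalence relation.
-/

namespace Pool.Agent.W_MP_ef54cf_lc

open OC

/-- Turing equivalence on Cantor space. -/
def TE (x v : ℕ → Bool) : Prop := TR (nat x) (nat v) ∧ TR (nat v) (nat x)

theorem TE.refl (x : ℕ → Bool) : TE x x := ⟨TR.refl _, TR.refl _⟩

theorem TE.symm {x v : ℕ → Bool} (h : TE x v) : TE v x := ⟨h.2, h.1⟩

theorem TE.trans {x v w : ℕ → Bool} (h : TE x v) (h' : TE v w) : TE x w :=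
  ⟨h.1.trans h'.1, h'.2.trans h.2⟩

theorem TE.of_E0 {x v : ℕ → Bool} (h : E0 x v) : TE x v := by
  have h1 : E0 (nat x) (nat v) := h.map Bool.toNat
  exact ⟨TR.of_E0 h1, TR.of_E0 h1.symm⟩

theorem TE.exists_Comp {x v : ℕ → Bool} (h : TE x v) : ∃ c d, Comp c x v ∧ Comp d v x := by
  obtain ⟨d, hd⟩ := TR_iff.mp h.1
  obtain ⟨c, hc⟩ := TR_iff.mp h.2
  exact ⟨c, d, hc, hd⟩

theorem TE.of_Comp {x v : ℕ → Bool} {c d : OC} (h : Comp c x v) (h' : Comp d v x) : TE x v :=
  ⟨TR_iff.mpr ⟨d, h'⟩, TR_iff.mpr ⟨c, h⟩⟩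

theorem E0.dec {y z : ℕ → ℕ} (h : E0 y z) : E0 (dec y) (dec z) :=
  h.map (fun k => decide ((k / 2) % 2 = 1))

/-- The saturation of the set of codes. -/
def InK (y : ℕ → ℕ) : Prop := ∃ x, E0 y (kk x)

theorem InK.congr {y z : ℕ → ℕ} (h : E0 y z) (hy : InK y) : InK z := by
  obtain ⟨x, hx⟩ := hy
  exact ⟨x, h.symm.trans hx⟩

theorem InK.kk (x : ℕ → Bool) : InK (kk x) := ⟨x, E0.refl _⟩

/-- The orbit equivalence relation. -/
def Rel (y z : ℕ → ℕ) : Prop := E0 y z ∨ (InK y ∧ InK z ∧ TE (dec y) (dec z))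

theorem Rel.refl (y : ℕ → ℕ) : Rel y y := Or.inl (E0.refl y)

theorem Rel.symm {y z : ℕ → ℕ} (h : Rel y z) : Rel z y := by
  rcases h with h | ⟨h1, h2, h3⟩
  · exact Or.inl h.symm
  · exact Or.inr ⟨h2, h1, h3.symm⟩

theorem Rel.trans {y z w : ℕ → ℕ} (h : Rel y z) (h' : Rel z w) : Rel y w := by
  rcases h with h | ⟨h1, h2, h3⟩
  · rcases h' with h' | ⟨h1', h2', h3'⟩
    · exact Or.inl (h.trans h')
    · exact Or.inr ⟨h1'.congr h.symm, h2', (TE.of_E0 h.dec).trans h3'⟩
  · rcases h' with h' | ⟨h1', h2', h3'⟩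
    · exact Or.inr ⟨h1, h2.congr h', h3.trans (TE.of_E0 h'.dec)⟩
    · exact Or.inr ⟨h1, h2', h3.trans h3'⟩

/-- The homeomorphism swapping two symbols at one position. -/
def swapH (n a b : ℕ) : (ℕ → ℕ) ≃ₜ (ℕ → ℕ) where
  toFun y := fun i => if i = n then Equiv.swap a b (y i) else y i
  invFun y := fun i => if i = n then Equiv.swap a b (y i) else y i
  left_inv y := by
    funext i
    by_cases h : i = n <;> simp [h]
  right_inv y := by
    funext i
    by_cases h : i = n <;> simp [h]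
  continuous_toFun := by
    refine continuous_pi fun i => ?_
    by_cases h : i = n
    · simp only [h, if_true]
      exact continuous_of_discreteTopology.comp (continuous_apply n)
    · simp only [h, if_false]
      exact continuous_apply i
  continuous_invFun := by
    refine continuous_pi fun i => ?_
    by_cases h : i = n
    · simp only [h, if_true]
      exact continuous_of_discreteTopology.comp (continuous_apply n)
    · simp only [h, if_false]
      exact continuous_apply i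

theorem swapH_apply (n a b : ℕ) (y : ℕ → ℕ) (i : ℕ) :
    swapH n a b y i = if i = n then Equiv.swap a b (y i) else y i := rfl

/-- The index set of the generators. -/
abbrev Ind : Type := (OC × OC) ⊕ (ℕ × ℕ × ℕ)

/-- The generators. -/
noncomputable def gen : Ind → ((ℕ → ℕ) ≃ₜ (ℕ → ℕ))
  | Sum.inl p => Classical.choose (exists_homeo_Gr p.1 p.2)
  | Sum.inr p => swapH p.1 p.2.1 p.2.2

theorem gen_Gr {c d : OC} {y z : ℕ → ℕ} (h : Gr c d y z) : gen (Sum.inl (c, d)) y = z :=
  (Classical.choose_spec (exists_homeo_Gr c d)).1 y z h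

theorem rel_gen (i : Ind) (y : ℕ → ℕ) : Rel y (gen i y) := by
  rcases i with ⟨c, d⟩ | ⟨n, a, b⟩
  · by_cases h : ∃ z, Gr c d y z
    · obtain ⟨z, hz⟩ := h
      rw [gen_Gr hz]
      obtain ⟨x, v, rfl, rfl, h3, h4⟩ := hz
      right
      refine ⟨InK.kk x, InK.kk v, ?_⟩
      rw [dec_kk, dec_kk]
      exact TE.of_Comp h3 h4
    · left
      exact (Classical.choose_spec (exists_homeo_Gr c d)).2 y h
  · left
    refine ⟨n + 1, fun i hi => ?_⟩
    show y i = swapH n a b y i
    rw [swapH_apply, if_neg (by omega)]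

/-- The group. -/
abbrev Gam : Type := FreeGroup Ind

/-- The action of the group. -/
noncomputable def act (γ : Gam) (y : ℕ → ℕ) : ℕ → ℕ := FreeGroup.lift gen γ y

theorem act_one (y : ℕ → ℕ) : act 1 y = y := by
  unfold act
  rw [map_one]
  rfl

theorem act_mul (γ δ : Gam) (y : ℕ → ℕ) : act (γ * δ) y = act γ (act δ y) := by
  unfold act
  rw [map_mul]
  rfl

theorem act_of (i : Ind) (y : ℕ → ℕ) : act (FreeGroup.of i) y = gen i y := by
  unfold act
  rw [FreeGroup.lift_apply_of]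

theorem continuous_act (γ : Gam) : Continuous (act γ) := (FreeGroup.lift gen γ).continuous

theorem rel_act (γ : Gam) : ∀ y, Rel y (act γ y) := by
  induction γ using FreeGroup.induction_on with
  | C1 =>
    intro y
    rw [act_one]
    exact Rel.refl y
  | of i =>
    intro y
    rw [act_of]
    exact rel_gen i y
  | inv_of i _ =>
    intro y
    have h1 : act (FreeGroup.of i) (act (FreeGroup.of i)⁻¹ y) = y := by
      rw [← act_mul, mul_inv_cancel, act_one]
    have h2 := rel_gen i (act (FreeGroup.of i)⁻¹ y)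
    rw [← act_of, h1] at h2
    exact h2.symm
  | mul γ δ h1 h2 =>
    intro y
    rw [act_mul]
    exact (h2 y).trans (h1 _)

theorem exists_act_of_E0 : ∀ (N : ℕ) (y z : ℕ → ℕ), (∀ n, N ≤ n → y n = z n) →
    ∃ γ, act γ y = z := by
  intro N
  induction N with
  | zero =>
    intro y z h
    refine ⟨1, ?_⟩
    rw [act_one]
    funext n
    exact h n (Nat.zero_le n)
  | succ N ih =>
    intro y z h
    obtain ⟨γ, hγ⟩ := ih (gen (Sum.inr (N, y N, z N)) y) z (by
      intro n hn
      show swapH N (y N) (z N) y n = z n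
      rw [swapH_apply]
      by_cases hnN : n = N
      · rw [if_pos hnN, hnN, Equiv.swap_apply_left]
      · rw [if_neg hnN]
        exact h n (by omega))
    refine ⟨γ * FreeGroup.of (Sum.inr (N, y N, z N)), ?_⟩
    rw [act_mul, act_of, hγ]

/-- The orbit equivalence relation is `Rel`. -/
theorem orbit_iff {y z : ℕ → ℕ} : (∃ γ, act γ y = z) ↔ Rel y z := by
  constructor
  · rintro ⟨γ, rfl⟩
    exact rel_act γ y
  · rintro (⟨N, h⟩ | ⟨⟨x, hx⟩, ⟨v, hv⟩, h3⟩)
    · exact exists_act_of_E0 N y z h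
    · have h1 : TE x v := by
        have e1 := TE.of_E0 hx.dec
        have e2 := TE.of_E0 hv.dec
        rw [dec_kk] at e1 e2
        exact (e1.symm.trans h3).trans e2
      obtain ⟨c, d, hc, hd⟩ := h1.exists_Comp
      obtain ⟨N, hN⟩ := hx
      obtain ⟨M, hM⟩ := hv
      obtain ⟨γ, hγ⟩ := exists_act_of_E0 N y (kk x) hN
      obtain ⟨δ, hδ⟩ := exists_act_of_E0 M (kk v) z (fun n hn => (hM n hn).symm)
      refine ⟨δ * FreeGroup.of (Sum.inl (c, d)) * γ, ?_⟩
      rw [act_mul, act_mul, hγ, act_of, gen_Gr ⟨x, v, rfl, rfl, hc, hd⟩, hδ]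

end Pool.Agent.W_MP_ef54cf_lc
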