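import Pool.Agent.W_MP_ef54cf_lc.Halt

/-!
Turing reducibility of total functions, the jump, and the coding map `kk`.
-/

open Encodable Denumerable Nat.Partrec

namespace Pool.Agent.W_MP_ef54cf_lc

open OC

/-- `TR f g`: the total function `f` is Turing reducible to `g`. -/
def TR (f g : ℕ → ℕ) : Prop := Nat.RecursiveIn {tot g} (tot f)

theorem TR_iff {f g : ℕ → ℕ} : TR f g ↔ ∃ c : OC, ∀ n, c.eval (tot g) n = Part.some (f n) := by
  unfold TR
  rw [OC.recursiveIn_iff]
  constructor
  · rintro ⟨c, hc⟩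
    exact ⟨c, fun n => by rw [hc]; rfl⟩
  · rintro ⟨c, hc⟩
    exact ⟨c, funext hc⟩

theorem TR.of_UC {f : (ℕ → ℕ) → ℕ → ℕ} (hf : UC f) (g : ℕ → ℕ) : TR (f g) g := by
  obtain ⟨c, hc⟩ := hf
  exact TR_iff.mpr ⟨c, hc g⟩

theorem TR.refl (f : ℕ → ℕ) : TR f f := TR.of_UC UC.oracle f

theorem TR.trans {f g h : ℕ → ℕ} (h1 : TR f g) (h2 : TR g h) : TR f h := by
  rw [TR_iff] at *
  obtain ⟨c, hc⟩ := h1
  obtain ⟨d, hd⟩ := h2
  refine ⟨subst d c, fun n => ?_⟩
  rw [eval_subst]
  have : d.eval (tot h) = tot g := funext hd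
  rw [this, hc]

theorem TR.of_computable {f : ℕ → ℕ} (hf : Computable f) (g : ℕ → ℕ) : TR f g :=
  TR.of_UC (UC.of_computable hf) g

theorem TR.comp {f h g : ℕ → ℕ} (hf : TR f g) (hh : TR h g) : TR (fun n => f (h n)) g := by
  rw [TR_iff] at *
  obtain ⟨a, ha⟩ := hf
  obtain ⟨b, hb⟩ := hh
  exact ⟨OC.comp a b, fun n => by simp only [eval, hb, Part.bind_some, ha]⟩

theorem TR.pair {f h g : ℕ → ℕ} (hf : TR f g) (hh : TR h g) :
    TR (fun n => Nat.pair (f n) (h n)) g := by
  rw [TR_iff] at *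
  obtain ⟨a, ha⟩ := hf
  obtain ⟨b, hb⟩ := hh
  exact ⟨OC.pair a b, fun n => by simp only [eval, hb, ha, Part.bind_some, Part.map_some]⟩

theorem TR.comp₁ {F : ℕ → ℕ} (hF : Computable F) {f g : ℕ → ℕ} (hf : TR f g) :
    TR (fun n => F (f n)) g := (TR.of_computable hF g).comp hf

theorem TR.comp₂ {F : ℕ → ℕ → ℕ} (hF : Computable₂ F) {f h g : ℕ → ℕ} (hf : TR f g)
    (hh : TR h g) : TR (fun n => F (f n) (h n)) g := by
  have h1 : Computable (fun q : ℕ => F q.unpair.1 q.unpair.2) :=
    hF.comp (Computable.fst.comp Computable.unpair) (Computable.snd.comp Computable.unpair)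
  have h2 := TR.comp₁ h1 (hf.pair hh)
  simpa only [Nat.unpair_pair] using h2

theorem TR.find {q g : ℕ → ℕ} (hq : TR q g) (hex : ∀ n, ∃ t, q (Nat.pair n t) = 0) :
    TR (fun n => Nat.find (hex n)) g := by
  rw [TR_iff] at *
  obtain ⟨c, hc⟩ := hq
  refine ⟨OC.rfind c, fun n => ?_⟩
  rw [Part.eq_some_iff, mem_eval_rfind]
  refine ⟨⟨_, by rw [hc]; exact Part.mem_some _, ?_⟩, fun k hk => ⟨_, by
      rw [hc]; exact Part.mem_some _, ?_⟩⟩
  · simpa using Nat.find_spec (hex n)
  · simpa using Nat.find_min (hex n) hk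

/-- Functions that agree from some point on. -/
def E0 {α : Type} (f g : ℕ → α) : Prop := ∃ N, ∀ n, N ≤ n → f n = g n

theorem E0.refl {α : Type} (f : ℕ → α) : E0 f f := ⟨0, fun _ _ => rfl⟩

theorem E0.symm {α : Type} {f g : ℕ → α} (h : E0 f g) : E0 g f := by
  obtain ⟨N, hN⟩ := h
  exact ⟨N, fun n hn => (hN n hn).symm⟩

theorem E0.trans {α : Type} {f g h : ℕ → α} (h1 : E0 f g) (h2 : E0 g h) : E0 f h := by
  obtain ⟨N, hN⟩ := h1
  obtain ⟨M, hM⟩ := h2
  exact ⟨max N M, fun n hn => (hN n (le_trans (le_max_left _ _) hn)).trans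
    (hM n (le_trans (le_max_right _ _) hn))⟩

theorem E0.map {α β : Type} {f g : ℕ → α} (h : E0 f g) (F : α → β) :
    E0 (fun n => F (f n)) (fun n => F (g n)) := by
  obtain ⟨N, hN⟩ := h
  exact ⟨N, fun n hn => by simp only [hN n hn]⟩

theorem TR.of_E0 {f g : ℕ → ℕ} (h : E0 f g) : TR f g := by
  obtain ⟨N, hN⟩ := h
  let F : ℕ → ℕ → ℕ := fun n v => if n < N then (pre f N).getD n 0 else v
  have hF : Computable₂ F := by
    have : Primrec₂ F := by
      refine Primrec.ite (Primrec.nat_lt.comp Primrec.fst (Primrec.const N)) ?_ Primrec.snd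
      exact (Primrec.list_getD 0).comp (Primrec.const (pre f N)) Primrec.fst
    exact this.to_comp
  have h1 := TR.comp₂ hF (TR.of_computable Computable.id g) (TR.refl g)
  have h2 : (fun n => F (id n) (g n)) = f := by
    funext n
    show (if n < N then (pre f N).getD n 0 else g n) = f n
    split_ifs with hn
    · simp [pre, hn]
    · exact (hN n (by omega)).symm
  rw [h2] at h1
  exact h1

/-- The halting set relative to `g`. -/
def K0 (g : ℕ → ℕ) : Set ℕ := {m | ∃ t, H g m t = true}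

/-- The characteristic function of the halting set. -/
noncomputable def chi (g : ℕ → ℕ) : ℕ → ℕ := (K0 g).indicator (fun _ => (1 : ℕ))

theorem chi_of_mem {g : ℕ → ℕ} {m : ℕ} (h : m ∈ K0 g) : chi g m = 1 := by
  unfold chi
  rw [Set.indicator_of_mem h]

theorem chi_of_notMem {g : ℕ → ℕ} {m : ℕ} (h : m ∉ K0 g) : chi g m = 0 := by
  unfold chi
  rw [Set.indicator_of_notMem h]

/-- The halting set is complete: domains of oracle machines are sections of it. -/
theorem exists_section {g : ℕ → ℕ} {f : ℕ → Part ℕ} (hf : Nat.RecursiveIn {tot g} f) :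
    ∃ e, ∀ n, (f n).Dom ↔ Nat.pair e n ∈ K0 g := by
  obtain ⟨c, rfl⟩ := OC.recursiveIn_iff.mp hf
  obtain ⟨e, he⟩ := exists_index c
  exact ⟨e, fun n => he g n⟩

theorem TR.indicator_of_section {g : ℕ → ℕ} {B : Set ℕ} {e : ℕ}
    (h : ∀ n, n ∈ B ↔ Nat.pair e n ∈ K0 g) : TR (B.indicator (fun _ => (1 : ℕ))) (chi g) := by
  have h1 : TR (fun n => chi g (Nat.pair e n)) (chi g) := by
    refine TR.comp (TR.refl _) (TR.of_computable ?_ _)
    exact (Primrec₂.natPair.comp (Primrec.const e) Primrec.id).to_comp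
  have h2 : (fun n => chi g (Nat.pair e n)) = B.indicator (fun _ => (1 : ℕ)) := by
    funext n
    by_cases hn : n ∈ B
    · rw [Set.indicator_of_mem hn, chi_of_mem ((h n).mp hn)]
    · rw [Set.indicator_of_notMem hn, chi_of_notMem (fun hc => hn ((h n).mpr hc))]
  rw [h2] at h1
  exact h1

/-- The halting set is recursively enumerable in the oracle. -/
theorem exists_re (g : ℕ → ℕ) : ∃ f : ℕ → Part ℕ, Nat.RecursiveIn {tot g} f ∧
    ∀ n, n ∈ K0 g ↔ (f n).Dom := by
  obtain ⟨a, ha⟩ := exists_halt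
  exact ⟨a.eval (tot g), OC.recursiveIn_iff.mpr ⟨a, rfl⟩, fun n => (ha g n).symm⟩

/-- The jump is monotone. -/
theorem TR.chi {f g : ℕ → ℕ} (h : TR f g) : TR (chi f) (chi g) := by
  rw [TR_iff] at h
  obtain ⟨c, hc⟩ := h
  obtain ⟨a, ha⟩ := exists_halt
  obtain ⟨e, he⟩ := exists_index (subst c a)
  refine TR.indicator_of_section (e := e) (fun n => ?_)
  have : c.eval (tot g) = tot f := funext hc
  rw [show (Nat.pair e n ∈ K0 g ↔ ∃ t, H g (Nat.pair e n) t = true) from Iff.rfl, ← he g n,
    eval_subst, this]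
  exact (ha f n).symm

/-- A set described by an existential quantifier over a computable relation is a section. -/
theorem exists_section_of_UC {h : (ℕ → ℕ) → ℕ → ℕ} (hh : UC h) :
    ∃ a : OC, ∀ (g : ℕ → ℕ) (m : ℕ),
      (a.eval (tot g) m).Dom ↔ ∃ t, h g (Nat.pair m t) = 0 := by
  obtain ⟨c, hc⟩ := hh
  refine ⟨OC.rfind c, fun g m => ?_⟩
  rw [Part.dom_iff_mem]
  constructor
  · rintro ⟨t, ht⟩
    rw [mem_eval_rfind] at ht
    obtain ⟨⟨u, hu, hu'⟩, -⟩ := ht
    rw [hc, Part.mem_some_iff] at hu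
    subst hu
    exact ⟨t, by simpa using hu'⟩
  · intro hex
    refine ⟨Nat.find hex, ?_⟩
    rw [mem_eval_rfind]
    refine ⟨⟨_, by rw [hc]; exact Part.mem_some _, ?_⟩, fun k hk => ⟨_, by
      rw [hc]; exact Part.mem_some _, ?_⟩⟩
    · simpa using Nat.find_spec hex
    · simpa using Nat.find_min hex hk

/-- The `ℕ`-valued version of a `Bool`-valued sequence. -/
def nat (x : ℕ → Bool) : ℕ → ℕ := fun n => (x n).toNat

/-- Every `0-1`-sequence is computable from its jump. -/
theorem TR_chi_self (x : ℕ → Bool) : TR (nat x) (chi (nat x)) := by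
  have h1 : UC (fun g q => if g q.unpair.1 = 1 then 0 else 1) := by
    have e1 : Computable (fun v : ℕ => if v = 1 then 0 else 1) :=
      (Primrec.ite (Primrec.eq.comp Primrec.id (Primrec.const 1)) (Primrec.const 0)
        (Primrec.const 1)).to_comp
    have e2 : UC (fun g q => g q.unpair.1) :=
      UC.comp (f := fun g => g) (h := fun _ q => q.unpair.1) UC.oracle
        (UC.of_computable (Computable.fst.comp Computable.unpair))
    exact UC.comp₁ e1 e2
  obtain ⟨a, ha⟩ := exists_section_of_UC h1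
  obtain ⟨e, he⟩ := exists_index a
  have h2 : ∀ n, n ∈ {n | x n = true} ↔ Nat.pair e n ∈ K0 (nat x) := by
    intro n
    rw [show (Nat.pair e n ∈ K0 (nat x) ↔ ∃ t, H (nat x) (Nat.pair e n) t = true) from Iff.rfl,
      ← he, ha]
    simp only [Nat.unpair_pair, nat]
    cases hx : x n <;> simp [hx]
  have h3 := TR.indicator_of_section h2
  have h4 : Set.indicator {n | x n = true} (fun _ => (1 : ℕ)) = nat x := by
    funext n
    unfold nat
    cases hx : x n
    · rw [Set.indicator_of_notMem (by simp [hx])]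
      rfl
    · rw [Set.indicator_of_mem (by simp [hx])]
      rfl
  rw [h4] at h3
  exact h3

/-- The halting stage (plus one), or zero if there is none. -/
noncomputable def stage (g : ℕ → ℕ) (m : ℕ) : ℕ :=
  open Classical in if h : ∃ t, H g m t = true then Nat.find h + 1 else 0

theorem stage_eq_zero {g : ℕ → ℕ} {m : ℕ} : stage g m = 0 ↔ m ∉ K0 g := by
  unfold stage K0
  split_ifs with h
  · simp [h]
  · simp [h]

theorem stage_eq_succ {g : ℕ → ℕ} {m t : ℕ} :
    stage g m = t + 1 ↔ H g m t = true ∧ ∀ s, s < t → H g m s = false := by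
  unfold stage
  split_ifs with h
  · rw [Nat.add_right_cancel_iff, Nat.find_eq_iff]
    simp
  · constructor
    · intro h0
      exact h0.elim
    · rintro ⟨h1, -⟩
      exact absurd ⟨t, h1⟩ h

/-- The coding map from Cantor space to Baire space. -/
noncomputable def kk (x : ℕ → Bool) : ℕ → ℕ :=
  fun n => 2 * (2 * stage (nat x) n + (x n).toNat)

/-- The decoding map. -/
def dec (y : ℕ → ℕ) : ℕ → Bool := fun n => decide ((y n / 2) % 2 = 1)

theorem dec_kk (x : ℕ → Bool) : dec (kk x) = x := by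
  funext n
  unfold dec kk
  cases hx : x n
  · simp only [Bool.toNat_false, decide_eq_false_iff_not]
    omega
  · simp only [Bool.toNat_true, decide_eq_true_eq]
    omega

theorem kk_div (x : ℕ → Bool) (n : ℕ) : kk x n / 4 = stage (nat x) n := by
  unfold kk
  have : (x n).toNat ≤ 1 := Bool.toNat_le _
  omega

theorem kk_even (x : ℕ → Bool) (n : ℕ) : kk x n % 2 = 0 := by
  unfold kk
  omega

theorem TR_chi_kk (x : ℕ → Bool) : TR (chi (nat x)) (kk x) := by
  have e1 : Computable (fun v : ℕ => if v / 4 = 0 then 0 else 1) :=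
    (Primrec.ite (Primrec.eq.comp (Primrec.nat_div.comp Primrec.id (Primrec.const 4))
      (Primrec.const 0)) (Primrec.const 0) (Primrec.const 1)).to_comp
  have h1 := TR.comp₁ e1 (TR.refl (kk x))
  have h2 : (fun n => if kk x n / 4 = 0 then 0 else 1) = chi (nat x) := by
    funext n
    rw [kk_div]
    by_cases h : n ∈ K0 (nat x)
    · rw [if_neg (by rw [stage_eq_zero]; simpa using h), chi_of_mem h]
    · rw [if_pos (by rw [stage_eq_zero]; exact h), chi_of_notMem h]
  rw [h2] at h1
  exact h1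

theorem TR_stage (x : ℕ → Bool) : TR (stage (nat x)) (chi (nat x)) := by
  have h1 : TR (HN (nat x)) (chi (nat x)) := (TR.of_UC UC.HN (nat x)).trans (TR_chi_self x)
  -- the search relation
  let Q : ℕ → ℕ → ℕ := fun a b => if a = 0 then 0 else b
  have hQ : Computable₂ Q :=
    (Primrec.ite (Primrec.eq.comp Primrec.fst (Primrec.const 0)) (Primrec.const 0)
      Primrec.snd).to_comp
  have h2 : TR (fun q : ℕ => chi (nat x) q.unpair.1) (chi (nat x)) :=
    TR.comp (TR.refl _) (TR.of_computable (Computable.fst.comp Computable.unpair) _)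
  have h3 : TR (fun q : ℕ => Q (chi (nat x) q.unpair.1) (HN (nat x) q)) (chi (nat x)) :=
    TR.comp₂ hQ h2 h1
  have hex : ∀ n, ∃ t, (fun q : ℕ => Q (chi (nat x) q.unpair.1) (HN (nat x) q))
      (Nat.pair n t) = 0 := by
    intro n
    by_cases hn : n ∈ K0 (nat x)
    · obtain ⟨t, ht⟩ := hn
      refine ⟨t, ?_⟩
      simp only [Nat.unpair_pair, HN, ht, Q]
      simp
    · refine ⟨0, ?_⟩
      simp only [Nat.unpair_pair, chi_of_notMem hn, Q]
      simp
  have h4 := TR.find h3 hex
  let R : ℕ → ℕ → ℕ := fun a b => if a = 0 then 0 else b + 1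
  have hR : Computable₂ R :=
    (Primrec.ite (Primrec.eq.comp Primrec.fst (Primrec.const 0)) (Primrec.const 0)
      (Primrec.succ.comp Primrec.snd)).to_comp
  have h5 := TR.comp₂ hR (TR.refl (chi (nat x))) h4
  have h6 : (fun n => R (chi (nat x) n) (Nat.find (hex n))) = stage (nat x) := by
    funext n
    by_cases hn : n ∈ K0 (nat x)
    · have e1 := chi_of_mem hn
      have e2 : R (chi (nat x) n) (Nat.find (hex n)) = Nat.find (hex n) + 1 := by
        simp only [R, e1]
        simp
      rw [e2]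
      symm
      rw [stage_eq_succ]
      have key : ∀ t, Q (chi (nat x) (Nat.pair n t).unpair.1) (HN (nat x) (Nat.pair n t)) = 0 ↔
          H (nat x) n t = true := by
        intro t
        rw [Nat.unpair_pair, e1]
        show (if (1 : ℕ) = 0 then 0 else HN (nat x) (Nat.pair n t)) = 0 ↔ _
        unfold HN
        rw [Nat.unpair_pair, if_neg one_ne_zero]
        cases H (nat x) n t <;> simp
      constructor
      · exact (key _).mp (Nat.find_spec (hex n))
      · intro s hs
        have s2 := Nat.find_min (hex n) hs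
        rw [← Bool.not_eq_true, ← key]
        exact s2
    · have e1 := chi_of_notMem hn
      have e2 : R (chi (nat x) n) (Nat.find (hex n)) = 0 := by
        simp only [R, e1]
        simp
      rw [e2]
      symm
      rw [stage_eq_zero]
      exact hn
  rw [h6] at h5
  exact h5

theorem TR_kk_chi (x : ℕ → Bool) : TR (kk x) (chi (nat x)) := by
  let F : ℕ → ℕ → ℕ := fun a b => 2 * (2 * a + b)
  have hF : Computable₂ F :=
    (Primrec.nat_mul.comp (Primrec.const 2) (Primrec.nat_add.comp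
      (Primrec.nat_mul.comp (Primrec.const 2) Primrec.fst) Primrec.snd)).to_comp
  exact TR.comp₂ hF (TR_stage x) (TR_chi_self x)

end Pool.Agent.W_MP_ef54cf_lc
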