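import Pool.Agent.W_MP_ef54cf_lc.Degree

/-!
Extension of a homeomorphism between closed subsets of Baire space (all of whose elements have
even entries) to a homeomorphism of Baire space that changes only finitely many entries of every
point outside.
-/

open Encodable

namespace Pool.Agent.W_MP_ef54cf_lc

/-- Agreement below `N`. -/
def agree {α : Type} (y y' : ℕ → α) (N : ℕ) : Prop := ∀ i, i < N → y i = y' i

theorem agree.mono {α : Type} {y y' : ℕ → α} {N M : ℕ} (h : agree y y' N) (hM : M ≤ N) :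
    agree y y' M := fun i hi => h i (lt_of_lt_of_le hi hM)

theorem agree.symm {α : Type} {y y' : ℕ → α} {N : ℕ} (h : agree y y' N) : agree y' y N :=
  fun i hi => (h i hi).symm

theorem agree.trans {α : Type} {y y' y'' : ℕ → α} {N : ℕ} (h : agree y y' N)
    (h' : agree y' y'' N) : agree y y'' N :=
  fun i hi => (h i hi).trans (h' i hi)

theorem agree_iff_pre {y y' : ℕ → ℕ} {N : ℕ} : agree y y' N ↔ OC.pre y N = OC.pre y' N := by
  constructor
  · exact fun h => OC.pre_congr h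
  · intro h i hi
    have h1 : (OC.pre y N)[i]? = (OC.pre y' N)[i]? := by rw [h]
    simpa [OC.pre, hi] using h1

theorem continuous_of_agree {g : (ℕ → ℕ) → (ℕ → ℕ)}
    (h : ∀ y M, ∃ N, ∀ y', agree y y' N → agree (g y) (g y') M) : Continuous g := by
  refine continuous_pi fun i => ?_
  refine continuous_iff_continuousAt.mpr fun y => ?_
  obtain ⟨N, hN⟩ := h y (i + 1)
  have hopen : IsOpen {y' : ℕ → ℕ | agree y y' N} := by
    have : {y' : ℕ → ℕ | agree y y' N} = ⋂ j ∈ Finset.range N, {y' : ℕ → ℕ | y j = y' j} := by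
      ext y'
      simp [agree]
    rw [this]
    refine isOpen_biInter_finset fun j _ => ?_
    have hj : Continuous (fun y' : ℕ → ℕ => y' j) := continuous_apply j
    have : {y' : ℕ → ℕ | y j = y' j} = (fun y' : ℕ → ℕ => y' j) ⁻¹' {y j} := by
      ext y'
      simp [eq_comm]
    rw [this]
    exact (isOpen_discrete _).preimage hj
  have hmem : {y' : ℕ → ℕ | agree y y' N} ∈ nhds y := hopen.mem_nhds (fun _ _ => rfl)
  refine ContinuousAt.congr (f := fun _ => g y i) continuousAt_const ?_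
  filter_upwards [hmem] with y' hy'
  exact hN y' hy' i (Nat.lt_succ_self i)

open OC (pre)

theorem pre_length (y : ℕ → ℕ) (n : ℕ) : (pre y n).length = n := by simp [pre]

theorem pre_getD (y : ℕ → ℕ) (n i d : ℕ) (h : i < n) : (pre y n).getD i d = y i := by
  simp [pre, h]

theorem pre_take (y : ℕ → ℕ) {n m : ℕ} (h : m ≤ n) : (pre y n).take m = pre y m := by
  unfold pre
  rw [← List.map_take, List.take_range, min_eq_left h]

/-- Overwriting the beginning of `y` by the list `τ`. -/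
def ovl (τ : List ℕ) (y : ℕ → ℕ) : ℕ → ℕ := fun i => τ.getD i (y i)

theorem ovl_lt {τ : List ℕ} {y : ℕ → ℕ} {i : ℕ} (h : i < τ.length) : ovl τ y i = τ.getD i 0 := by
  unfold ovl
  rw [List.getD_eq_getElem _ _ h, List.getD_eq_getElem _ _ h]

theorem ovl_ge {τ : List ℕ} {y : ℕ → ℕ} {i : ℕ} (h : τ.length ≤ i) : ovl τ y i = y i := by
  unfold ovl
  rw [List.getD_eq_default _ _ h]

theorem pre_ovl (τ : List ℕ) (y : ℕ → ℕ) : pre (ovl τ y) τ.length = τ := by
  apply List.ext_getElem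
  · rw [pre_length]
  · intro i h1 h2
    have h3 := pre_getD (ovl τ y) τ.length i 0 h2
    rw [List.getD_eq_getElem _ _ h1] at h3
    rw [h3, ovl_lt h2, List.getD_eq_getElem _ _ h2]

theorem ovl_ovl {σ τ : List ℕ} (h : σ.length = τ.length) (y : ℕ → ℕ) :
    ovl σ (ovl τ y) = ovl σ y := by
  funext i
  by_cases hi : i < σ.length
  · rw [ovl_lt hi, ovl_lt hi]
  · rw [ovl_ge (by omega), ovl_ge (by omega), ovl_ge (by omega)]

theorem ovl_pre (y : ℕ → ℕ) (n : ℕ) : ovl (pre y n) y = y := by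
  funext i
  by_cases hi : i < n
  · rw [ovl_lt (by rwa [pre_length]), pre_getD _ _ _ _ hi]
  · rw [ovl_ge (by rw [pre_length]; omega)]

/-- Two sided flip. -/
def flipR (Gr : (ℕ → ℕ) → (ℕ → ℕ) → Prop) : (ℕ → ℕ) → (ℕ → ℕ) → Prop := fun y z => Gr z y

/-- Initial segments of elements of the domain of `Gr`. -/
def InT (Gr : (ℕ → ℕ) → (ℕ → ℕ) → Prop) (σ : List ℕ) : Prop :=
  ∃ y z, Gr y z ∧ pre y σ.length = σ

/-- The conditions on the graph. -/
structure Good (Gr : (ℕ → ℕ) → (ℕ → ℕ) → Prop) : Prop where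
  func : ∀ y z z', Gr y z → Gr y z' → z = z'
  lim : ∀ y, (∀ N, ∃ y' z', Gr y' z' ∧ agree y y' N) → ∃ z, Gr y z ∧
    ∀ M, ∃ N, ∀ y' z', Gr y' z' → agree y y' N → agree z z' M
  even : ∀ y z, Gr y z → ∀ i, y i % 2 = 0
  ne : ∃ y z, Gr y z

/-- Exits from the tree of the domain. -/
def Exit (Gr : (ℕ → ℕ) → (ℕ → ℕ) → Prop) : Type :=
  {q : List ℕ × ℕ // InT Gr q.1 ∧ ¬ InT Gr (q.1 ++ [q.2])}

theorem InT.pre_of_le {Gr : (ℕ → ℕ) → (ℕ → ℕ) → Prop} {y : ℕ → ℕ} {n m : ℕ} (h : m ≤ n)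
    (hn : InT Gr (pre y n)) : InT Gr (pre y m) := by
  obtain ⟨y', z', h1, h2⟩ := hn
  refine ⟨y', z', h1, ?_⟩
  rw [pre_length] at h2 ⊢
  have := congrArg (List.take m) h2
  rwa [pre_take _ h, pre_take _ h] at this

theorem exists_exit {Gr : (ℕ → ℕ) → (ℕ → ℕ) → Prop} (hG : Good Gr) {y : ℕ → ℕ}
    (hy : ¬ ∃ z, Gr y z) : ∃ n, ¬ InT Gr (pre y (n + 1)) := by
  by_contra hcon
  push Not at hcon
  apply hy
  obtain ⟨z, hz, -⟩ := hG.lim y (fun N => by
    obtain ⟨y', z', h1, h2⟩ := (hcon N).pre_of_le (Nat.le_succ N)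
    rw [pre_length] at h2
    exact ⟨y', z', h1, agree_iff_pre.mpr h2.symm⟩)
  exact ⟨z, hz⟩

theorem inT_nil {Gr : (ℕ → ℕ) → (ℕ → ℕ) → Prop} (hG : Good Gr) : InT Gr [] := by
  obtain ⟨y, z, h⟩ := hG.ne
  exact ⟨y, z, h, rfl⟩

/-- The exit time of a point outside the domain. -/
noncomputable def exitTime {Gr : (ℕ → ℕ) → (ℕ → ℕ) → Prop} (hG : Good Gr) (y : ℕ → ℕ)
    (hy : ¬ ∃ z, Gr y z) : ℕ :=
  open Classical in Nat.find (exists_exit hG hy)

theorem exitTime_spec {Gr : (ℕ → ℕ) → (ℕ → ℕ) → Prop} (hG : Good Gr) (y : ℕ → ℕ)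
    (hy : ¬ ∃ z, Gr y z) : InT Gr (pre y (exitTime hG y hy)) ∧
      ¬ InT Gr (pre y (exitTime hG y hy + 1)) := by
  classical
  have h1 := Nat.find_spec (exists_exit hG hy)
  have h2 : InT Gr (pre y (exitTime hG y hy)) := by
    rcases h : exitTime hG y hy with _ | n
    · exact inT_nil hG
    · by_contra hc
      have h3 : n < Nat.find (exists_exit hG hy) := by
        have : exitTime hG y hy = Nat.find (exists_exit hG hy) := by
          unfold exitTime
          congr
        omega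
      exact Nat.find_min (exists_exit hG hy) h3 hc
  refine ⟨h2, ?_⟩
  have : exitTime hG y hy = Nat.find (exists_exit hG hy) := by
    unfold exitTime
    congr
  rw [this]
  exact h1

theorem exitTime_unique {Gr : (ℕ → ℕ) → (ℕ → ℕ) → Prop} (hG : Good Gr) (y : ℕ → ℕ)
    (hy : ¬ ∃ z, Gr y z) {n : ℕ} (h1 : InT Gr (pre y n)) (h2 : ¬ InT Gr (pre y (n + 1))) :
    exitTime hG y hy = n := by
  obtain ⟨h3, h4⟩ := exitTime_spec hG y hy
  rcases lt_trichotomy (exitTime hG y hy) n with h | h | h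
  · exact absurd (h1.pre_of_le h) h4
  · exact h
  · exact absurd (h3.pre_of_le h) h2

/-- The exit of a point outside the domain. -/
noncomputable def exitOf {Gr : (ℕ → ℕ) → (ℕ → ℕ) → Prop} (hG : Good Gr) (y : ℕ → ℕ)
    (hy : ¬ ∃ z, Gr y z) : Exit Gr :=
  ⟨(pre y (exitTime hG y hy), y (exitTime hG y hy)), (exitTime_spec hG y hy).1, by
    rw [← OC.pre_succ]
    exact (exitTime_spec hG y hy).2⟩

/-- The compatibility relation between exits. -/
def Compat (Gr : (ℕ → ℕ) → (ℕ → ℕ) → Prop) (e : Exit Gr) (e' : Exit (flipR Gr)) : Prop :=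
  e'.1.1.length = e.1.1.length ∧ ∃ y z, Gr y z ∧ pre y e.1.1.length = e.1.1 ∧
    pre z e.1.1.length = e'.1.1

theorem exists_injection {Gr : (ℕ → ℕ) → (ℕ → ℕ) → Prop} (hG' : Good (flipR Gr)) :
    ∃ f : Exit Gr → Exit (flipR Gr), Function.Injective f ∧ ∀ e, Compat Gr e (f e) := by
  have hch : ∀ e : Exit Gr, ∃ y z, Gr y z ∧ pre y e.1.1.length = e.1.1 := fun e => e.2.1
  choose y z h1 h2 using hch
  refine ⟨fun e => ⟨(pre (z e) e.1.1.length, 2 * encode e.1 + 1), ?_, ?_⟩, ?_, ?_⟩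
  · exact ⟨z e, y e, h1 e, by rw [pre_length]⟩
  · rintro ⟨z', y', hz', hp⟩
    have h3 := hG'.even z' y' hz' e.1.1.length
    simp only [List.length_append, pre_length, List.length_cons, List.length_nil, zero_add] at hp
    have h4 : (pre z' (e.1.1.length + 1)).getD e.1.1.length 0 =
        (pre (z e) e.1.1.length ++ [2 * encode e.1 + 1]).getD e.1.1.length 0 := by rw [hp]
    rw [pre_getD _ _ _ _ (Nat.lt_succ_self _)] at h4
    rw [List.getD_append_right _ _ _ _ (by rw [pre_length]), pre_length] at h4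
    simp only [Nat.sub_self, List.getD_cons_zero] at h4
    omega
  · intro e e' h
    have h3 := congrArg (fun q : Exit (flipR Gr) => q.1.2) h
    simp only at h3
    have h4 : encode e.1 = encode e'.1 := by omega
    exact Subtype.ext (encode_injective h4)
  · intro e
    exact ⟨by simp only [pre_length], y e, z e, h1 e, h2 e, rfl⟩

theorem exists_matching {Gr : (ℕ → ℕ) → (ℕ → ℕ) → Prop} (hG : Good Gr) (hG' : Good (flipR Gr)) :
    ∃ γ : Exit Gr ≃ Exit (flipR Gr), ∀ e, Compat Gr e (γ e) := by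
  obtain ⟨f, hf, hf'⟩ := exists_injection hG'
  obtain ⟨g, hg, hg'⟩ := exists_injection (Gr := flipR Gr) hG
  obtain ⟨h, hb, hR⟩ := Function.Embedding.schroeder_bernstein_of_rel hf hg (Compat Gr) hf' (by
    intro e
    obtain ⟨h1, y, z, h2, h3, h4⟩ := hg' e
    refine ⟨h1.symm, z, y, h2, ?_, ?_⟩
    · rw [h1]
      exact h4
    · rw [h1]
      exact h3)
  exact ⟨Equiv.ofBijective h hb, hR⟩

/-- The extension. -/
noncomputable def ext {Gr : (ℕ → ℕ) → (ℕ → ℕ) → Prop} (hG : Good Gr)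
    (γ : Exit Gr → Exit (flipR Gr)) (y : ℕ → ℕ) : ℕ → ℕ :=
  open Classical in
  if h : ∃ z, Gr y z then h.choose
  else ovl ((γ (exitOf hG y h)).1.1 ++ [(γ (exitOf hG y h)).1.2]) y

theorem ext_of_mem {Gr : (ℕ → ℕ) → (ℕ → ℕ) → Prop} (hG : Good Gr)
    (γ : Exit Gr → Exit (flipR Gr)) {y z : ℕ → ℕ} (h : Gr y z) : ext hG γ y = z := by
  have h' : ∃ z, Gr y z := ⟨z, h⟩
  unfold ext
  rw [dif_pos h']
  exact hG.func y _ _ h'.choose_spec h

theorem ext_of_not_mem {Gr : (ℕ → ℕ) → (ℕ → ℕ) → Prop} (hG : Good Gr)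
    (γ : Exit Gr → Exit (flipR Gr)) {y : ℕ → ℕ} (h : ¬ ∃ z, Gr y z) :
    ext hG γ y = ovl ((γ (exitOf hG y h)).1.1 ++ [(γ (exitOf hG y h)).1.2]) y := by
  unfold ext
  rw [dif_neg h]

theorem exitOf_length {Gr : (ℕ → ℕ) → (ℕ → ℕ) → Prop} (hG : Good Gr) (y : ℕ → ℕ)
    (hy : ¬ ∃ z, Gr y z) : (exitOf hG y hy).1.1.length = exitTime hG y hy := by
  simp [exitOf, pre_length]

theorem ext_ext {Gr : (ℕ → ℕ) → (ℕ → ℕ) → Prop} (hG : Good Gr) (hG' : Good (flipR Gr))
    (γ : Exit Gr ≃ Exit (flipR Gr)) (hγ : ∀ e, Compat Gr e (γ e)) (y : ℕ → ℕ) :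
    ext hG' γ.symm (ext hG γ y) = y := by
  by_cases h : ∃ z, Gr y z
  · obtain ⟨z, hz⟩ := h
    rw [ext_of_mem hG γ hz]
    exact ext_of_mem hG' γ.symm (show flipR Gr z y from hz)
  · rw [ext_of_not_mem hG γ h]
    set e := exitOf hG y h with he
    set e' := γ e with he'
    have hlen : e'.1.1.length = e.1.1.length := (hγ e).1
    set τ := e'.1.1 ++ [e'.1.2] with hτ
    have hτlen : τ.length = e.1.1.length + 1 := by
      rw [hτ, List.length_append, hlen]
      rfl
    have hp1 : pre (ovl τ y) (e.1.1.length + 1) = τ := by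
      rw [← hτlen]
      exact pre_ovl τ y
    have hp2 : pre (ovl τ y) e.1.1.length = e'.1.1 := by
      rw [← pre_take (ovl τ y) (Nat.le_succ e.1.1.length), Nat.succ_eq_add_one, hp1, hτ, ← hlen,
        List.take_left]
    have hnot : ¬ ∃ z, flipR Gr (ovl τ y) z := by
      rintro ⟨z, hz⟩
      apply e'.2.2
      refine ⟨_, z, hz, ?_⟩
      rw [← hτ]
      exact pre_ovl τ y
    have hexit : exitTime hG' (ovl τ y) hnot = e.1.1.length := by
      apply exitTime_unique
      · rw [hp2]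
        exact e'.2.1
      · rw [hp1, hτ]
        exact e'.2.2
    have hexitOf : exitOf hG' (ovl τ y) hnot = e' := by
      apply Subtype.ext
      unfold exitOf
      simp only
      rw [hexit, hp2]
      have : ovl τ y e.1.1.length = e'.1.2 := by
        rw [ovl_lt (by rw [hτlen]; exact Nat.lt_succ_self _), hτ,
          List.getD_append_right _ _ _ _ (by rw [hlen]), hlen]
        simp
      rw [this]
    rw [ext_of_not_mem hG' γ.symm hnot, hexitOf, he', Equiv.symm_apply_apply]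
    rw [ovl_ovl (by rw [hτlen, List.length_append]; rfl)]
    have : e.1.1 ++ [e.1.2] = pre y (exitTime hG y h + 1) := by
      rw [OC.pre_succ]
      rfl
    rw [this, ovl_pre]

theorem continuous_ext {Gr : (ℕ → ℕ) → (ℕ → ℕ) → Prop} (hG : Good Gr)
    (γ : Exit Gr → Exit (flipR Gr)) (hγ : ∀ e, Compat Gr e (γ e)) : Continuous (ext hG γ) := by
  apply continuous_of_agree
  intro y M
  by_cases h : ∃ z, Gr y z
  · obtain ⟨z, hz⟩ := h
    obtain ⟨z0, hz0, hlim⟩ := hG.lim y (fun N => ⟨y, z, hz, fun _ _ => rfl⟩)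
    have : z0 = z := hG.func y _ _ hz0 hz
    subst this
    obtain ⟨N, hN⟩ := hlim M
    refine ⟨max N M, fun y' hy' => ?_⟩
    rw [ext_of_mem hG γ hz]
    by_cases h' : ∃ z', Gr y' z'
    · obtain ⟨z', hz'⟩ := h'
      rw [ext_of_mem hG γ hz']
      exact hN y' z' hz' (hy'.mono (le_max_left _ _))
    · rw [ext_of_not_mem hG γ h']
      set e := exitOf hG y' h' with he
      have hel : e.1.1.length = exitTime hG y' h' := exitOf_length hG y' h'
      have hge : max N M ≤ exitTime hG y' h' := by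
        by_contra hlt
        push Not at hlt
        apply (exitTime_spec hG y' h').2
        refine ⟨y, z0, hz, ?_⟩
        rw [pre_length]
        exact agree_iff_pre.mp (hy'.mono hlt)
      obtain ⟨h1, y'', z'', h2, h3, h4⟩ := hγ e
      have h5 : agree y y'' (max N M) := by
        have h6 : agree y'' y' (exitTime hG y' h') := by
          have h8 : pre y'' (exitTime hG y' h') = e.1.1 := by
            rw [← hel]
            exact h3
          rw [agree_iff_pre, h8]
          rfl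
        exact hy'.trans (h6.symm.mono hge)
      have h7 := hN y'' z'' h2 (h5.mono (le_max_left _ _))
      intro i hi
      have hi' : i < e.1.1.length := by
        rw [hel]
        exact lt_of_lt_of_le (lt_of_lt_of_le hi (le_max_right _ _)) hge
      rw [h7 i hi, ovl_lt (by rw [List.length_append, h1]; exact Nat.lt_succ_of_lt hi'),
        List.getD_append _ _ _ _ (by rw [h1]; exact hi'), ← h4, pre_getD _ _ _ _ hi']
  · rw [ext_of_not_mem hG γ h]
    refine ⟨max (exitTime hG y h + 1) M, fun y' hy' => ?_⟩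
    have hp1 : pre y' (exitTime hG y h + 1) = pre y (exitTime hG y h + 1) :=
      (agree_iff_pre.mp (hy'.mono (le_max_left _ _))).symm
    have hp2 : pre y' (exitTime hG y h) = pre y (exitTime hG y h) :=
      (agree_iff_pre.mp (hy'.mono (le_trans (Nat.le_succ _) (le_max_left _ _)))).symm
    have h' : ¬ ∃ z, Gr y' z := by
      rintro ⟨z, hz⟩
      apply (exitTime_spec hG y h).2
      refine ⟨y', z, hz, ?_⟩
      rw [pre_length]
      exact hp1
    have ht : exitTime hG y' h' = exitTime hG y h := by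
      apply exitTime_unique
      · rw [hp2]
        exact (exitTime_spec hG y h).1
      · rw [hp1]
        exact (exitTime_spec hG y h).2
    have he : exitOf hG y' h' = exitOf hG y h := by
      apply Subtype.ext
      unfold exitOf
      simp only
      rw [ht, hp2, hy' (exitTime hG y h) (lt_of_lt_of_le (Nat.lt_succ_self _) (le_max_left _ _))]
    rw [ext_of_not_mem hG γ h', he]
    intro i hi
    unfold ovl
    rw [hy' i (lt_of_lt_of_le hi (le_max_right _ _))]

/-- **Extension theorem.** -/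
theorem exists_homeo {Gr : (ℕ → ℕ) → (ℕ → ℕ) → Prop} (hG : Good Gr) (hG' : Good (flipR Gr)) :
    ∃ g : (ℕ → ℕ) ≃ₜ (ℕ → ℕ), (∀ y z, Gr y z → g y = z) ∧
      ∀ y, (¬ ∃ z, Gr y z) → E0 y (g y) := by
  obtain ⟨γ, hγ⟩ := exists_matching hG hG'
  have hγ' : ∀ e, Compat (flipR Gr) e (γ.symm e) := by
    intro e
    obtain ⟨h1, y, z, h2, h3, h4⟩ := hγ (γ.symm e)
    rw [Equiv.apply_symm_apply] at h1 h4
    refine ⟨h1.symm, z, y, h2, ?_, ?_⟩
    · rw [h1]
      exact h4
    · rw [h1]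
      exact h3
  refine ⟨⟨⟨ext hG γ, ext hG' γ.symm, ext_ext hG hG' γ hγ, ?_⟩, continuous_ext hG γ hγ,
    continuous_ext hG' γ.symm hγ'⟩, ?_, ?_⟩
  · exact ext_ext hG' hG γ.symm hγ'
  · intro y z hyz
    exact ext_of_mem hG γ hyz
  · intro y hy
    show E0 y (ext hG γ y)
    rw [ext_of_not_mem hG γ hy]
    exact ⟨_, fun i hi => (ovl_ge hi).symm⟩

end Pool.Agent.W_MP_ef54cf_lc
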