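import Pool.Agent.W_MP_ef54cf_lc.Ext

/-!
The graphs of the partial homeomorphisms induced by Turing equivalences.
-/

open Encodable

namespace Pool.Agent.W_MP_ef54cf_lc

open OC

/-- `c` computes the characteristic function of `v` from that of `x`. -/
def Comp (c : OC) (x v : ℕ → Bool) : Prop :=
  ∀ n, c.eval (tot (nat x)) n = Part.some (nat v n)

/-- The graph attached to a pair of codes. -/
def Gr (c d : OC) (y z : ℕ → ℕ) : Prop :=
  ∃ x v, y = kk x ∧ z = kk v ∧ Comp c x v ∧ Comp d v x

theorem nat_injective : Function.Injective nat := by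
  intro x v h
  funext n
  have := congrFun h n
  unfold nat at this
  cases hx : x n <;> cases hv : v n <;> simp_all

theorem Comp.unique {c : OC} {x v v' : ℕ → Bool} (h : Comp c x v) (h' : Comp c x v') :
    v = v' := by
  apply nat_injective
  funext n
  have := (h n).symm.trans (h' n)
  exact Part.some_injective this

theorem flipR_Gr (c d : OC) : flipR (Gr c d) = Gr d c := by
  funext y z
  apply propext
  constructor
  · rintro ⟨x, v, h1, h2, h3, h4⟩
    exact ⟨v, x, h2, h1, h4, h3⟩
  · rintro ⟨x, v, h1, h2, h3, h4⟩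
    exact ⟨v, x, h2, h1, h4, h3⟩

theorem exists_stage_code : ∃ a : OC, ∀ (g : ℕ → ℕ) (m t : ℕ),
    t ∈ a.eval (tot g) m ↔ stage g m = t + 1 := by
  obtain ⟨c, hc⟩ := UC.HN
  refine ⟨OC.rfind c, fun g m t => ?_⟩
  rw [mem_eval_rfind, stage_eq_succ]
  have key : ∀ s, (H g m s = true ↔ HN g (Nat.pair m s) = 0) := by
    intro s
    unfold HN
    rw [Nat.unpair_pair]
    cases H g m s <;> simp
  constructor
  · rintro ⟨⟨u, hu, hu'⟩, h2⟩
    rw [hc, Part.mem_some_iff] at hu
    subst hu
    refine ⟨(key t).mpr (by simpa using hu'), fun s hs => ?_⟩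
    obtain ⟨v, hv, hv'⟩ := h2 s hs
    rw [hc, Part.mem_some_iff] at hv
    subst hv
    rw [← Bool.not_eq_true, key]
    simpa using hv'
  · rintro ⟨h1, h2⟩
    refine ⟨⟨_, by rw [hc]; exact Part.mem_some _, ?_⟩, fun s hs => ⟨_, by
      rw [hc]; exact Part.mem_some _, ?_⟩⟩
    · simpa using (key t).mp h1
    · have := h2 s hs
      rw [← Bool.not_eq_true, key] at this
      simpa using this

theorem stage_congr {a : OC} (ha : ∀ (g : ℕ → ℕ) (m t : ℕ),
    t ∈ a.eval (tot g) m ↔ stage g m = t + 1) {g g' : ℕ → ℕ} {m : ℕ}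
    (h : a.eval (tot g) m = a.eval (tot g') m) : stage g m = stage g' m := by
  rcases h1 : stage g m with _ | t
  · rcases h2 : stage g' m with _ | t
    · rfl
    · rw [← ha, ← h, ha, h1] at h2
      exact h2
  · rw [← ha, h, ha] at h1
    exact h1.symm

theorem mem_K0_iff (x : ℕ → Bool) (m : ℕ) : m ∈ K0 (nat x) ↔ kk x m / 4 ≠ 0 := by
  rw [kk_div, ne_eq, stage_eq_zero, not_not]

theorem agree_dec {y y' : ℕ → ℕ} {N : ℕ} (h : agree y y' N) : agree (dec y) (dec y') N := by
  intro i hi
  unfold dec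
  rw [h i hi]

theorem agree_of_kk {x x' : ℕ → Bool} {N : ℕ} (h : agree (kk x) (kk x') N) : agree x x' N := by
  have := agree_dec h
  rwa [dec_kk, dec_kk] at this

theorem agree_nat {x x' : ℕ → Bool} {N : ℕ} (h : agree x x' N) : agree (nat x) (nat x') N := by
  intro i hi
  unfold nat
  rw [h i hi]

/-- Every computable functional is continuous for the topology given by `kk`. -/
theorem eval_locally_const (c : OC) (x : ℕ → Bool) (n : ℕ) : ∃ N, ∀ x' : ℕ → Bool,
    agree (kk x) (kk x') N → c.eval (tot (nat x')) n = c.eval (tot (nat x)) n := by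
  obtain ⟨e, he⟩ := exists_index c
  have he' : ∀ x : ℕ → Bool, (c.eval (tot (nat x)) n).Dom ↔ kk x (Nat.pair e n) / 4 ≠ 0 := by
    intro x
    rw [he, ← mem_K0_iff]
    rfl
  by_cases hdom : (c.eval (tot (nat x)) n).Dom
  · obtain ⟨b, hb⟩ := Part.dom_iff_mem.mp hdom
    obtain ⟨s, hs⟩ := eval_use _ c n b hb
    refine ⟨s, fun x' hx' => ?_⟩
    rw [Part.eq_some_iff.mpr hb, Part.eq_some_iff]
    have h1 : res (tot (nat x)) s = res (tot (nat x')) s := by
      funext i
      unfold res
      split_ifs with hi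
      · unfold tot
        rw [agree_nat (agree_of_kk hx') i hi]
      · rfl
    rw [h1] at hs
    exact eval_mono (res_le _ s) _ _ _ hs
  · refine ⟨Nat.pair e n + 1, fun x' hx' => ?_⟩
    have hdom' : ¬ (c.eval (tot (nat x')) n).Dom := by
      rw [he'] at hdom ⊢
      rw [← hx' _ (Nat.lt_succ_self _)]
      exact hdom
    rw [Part.eq_none_iff'.mpr hdom, Part.eq_none_iff'.mpr hdom']

/-- The image of `kk` is closed. -/
theorem kk_closed {y : ℕ → ℕ} (h : ∀ N, ∃ x' : ℕ → Bool, agree y (kk x') N) :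
    y = kk (dec y) := by
  funext n
  obtain ⟨x0, hx0⟩ := h (n + 1)
  have e0 : y n = kk x0 n := hx0 n (Nat.lt_succ_self n)
  have e1 : y n / 4 = stage (nat x0) n := by rw [e0, kk_div]
  have e2 : dec y n = x0 n := by
    have := agree_dec hx0 n (Nat.lt_succ_self n)
    rw [this, dec_kk]
  have e3 : stage (nat (dec y)) n = y n / 4 := by
    rcases hs : y n / 4 with _ | t
    · rw [stage_eq_zero]
      rintro ⟨t, ht⟩
      obtain ⟨x', hx'⟩ := h (max (n + 1) (t + 1))
      have h1 : agree (dec y) x' (max (n + 1) (t + 1)) := by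
        have := agree_dec hx'
        rwa [dec_kk] at this
      have h2 : H (nat x') n t = true := by
        rw [← H_congr (g := nat (dec y)) (fun i hi => agree_nat h1 i (by
          exact lt_of_lt_of_le (Nat.lt_succ_of_lt hi) (le_max_right _ _)))]
        exact ht
      have h3 : n ∈ K0 (nat x') := ⟨t, h2⟩
      rw [mem_K0_iff, ← hx' n (lt_of_lt_of_le (Nat.lt_succ_self _) (le_max_left _ _))] at h3
      exact h3 hs
    · obtain ⟨x', hx'⟩ := h (max (n + 1) (t + 1))
      have h1 : agree (dec y) x' (max (n + 1) (t + 1)) := by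
        have := agree_dec hx'
        rwa [dec_kk] at this
      have h2 : stage (nat x') n = t + 1 := by
        rw [← kk_div, ← hx' n (lt_of_lt_of_le (Nat.lt_succ_self _) (le_max_left _ _)), hs]
      rw [stage_eq_succ] at h2 ⊢
      have h3 : ∀ s, s ≤ t → H (nat (dec y)) n s = H (nat x') n s := by
        intro s hs'
        exact H_congr (fun i hi => agree_nat h1 i (by
          have := le_max_right (n + 1) (t + 1)
          omega))
      exact ⟨by rw [h3 t le_rfl]; exact h2.1, fun s hs' => by rw [h3 s hs'.le]; exact h2.2 s hs'⟩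
  unfold kk
  rw [e3, e2, e0]
  unfold kk
  have : (x0 n).toNat ≤ 1 := Bool.toNat_le _
  omega

theorem Gr_lim (c d : OC) (y : ℕ → ℕ) (h : ∀ N, ∃ y' z', Gr c d y' z' ∧ agree y y' N) :
    ∃ z, Gr c d y z ∧ ∀ M, ∃ N, ∀ y' z', Gr c d y' z' → agree y y' N → agree z z' M := by
  -- `y` is a code
  have hy : y = kk (dec y) := by
    apply kk_closed
    intro N
    obtain ⟨y', z', ⟨x, v, rfl, -, -, -⟩, h2⟩ := h N
    exact ⟨x, h2⟩
  set x := dec y with hx
  rw [hy] at h ⊢
  -- the value of `c` at `x`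
  have hval : ∀ n, ∃ b : Bool, c.eval (tot (nat x)) n = Part.some b.toNat := by
    intro n
    obtain ⟨N, hN⟩ := eval_locally_const c x n
    obtain ⟨y', z', ⟨x', v', rfl, -, h3, -⟩, h2⟩ := h N
    refine ⟨v' n, ?_⟩
    rw [← hN x' h2, h3 n]
    rfl
  choose v hv using hval
  have hcomp : Comp c x v := hv
  have htot : c.eval (tot (nat x)) = tot (nat v) := funext hcomp
  have hcomp' : Comp d v x := by
    intro n
    obtain ⟨N, hN⟩ := eval_locally_const (subst c d) x n
    obtain ⟨y', z', ⟨x', v', rfl, -, h3, h4⟩, h2⟩ := h (max N (n + 1))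
    have h5 := hN x' (h2.mono (le_max_left _ _))
    have htot' : c.eval (tot (nat x')) = tot (nat v') := funext h3
    rw [eval_subst, eval_subst, htot, htot', h4 n] at h5
    rw [← h5]
    unfold nat
    rw [agree_of_kk h2 n (lt_of_lt_of_le (Nat.lt_succ_self _) (le_max_right _ _))]
  refine ⟨kk v, ⟨x, v, rfl, rfl, hcomp, hcomp'⟩, ?_⟩
  obtain ⟨a, ha⟩ := exists_stage_code
  -- continuity at each coordinate
  have hcoord : ∀ i, ∃ N, ∀ y' z', Gr c d y' z' → agree (kk x) y' N → kk v i = z' i := by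
    intro i
    obtain ⟨N1, hN1⟩ := eval_locally_const (subst c a) x i
    obtain ⟨N2, hN2⟩ := eval_locally_const c x i
    refine ⟨max N1 N2, ?_⟩
    rintro y' z' ⟨x', v', rfl, rfl, h3, h4⟩ h2
    have h5 := hN1 x' (h2.mono (le_max_left _ _))
    have htot' : c.eval (tot (nat x')) = tot (nat v') := funext h3
    rw [eval_subst, eval_subst, htot, htot'] at h5
    have h6 := stage_congr ha h5
    have h7 := hN2 x' (h2.mono (le_max_right _ _))
    rw [h3 i, hcomp i] at h7
    have h8 : nat v' i = nat v i := Part.some_injective h7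
    unfold kk
    unfold nat at h8
    rw [h6, h8]
  intro M
  induction M with
  | zero => exact ⟨0, fun _ _ _ _ i hi => absurd hi (Nat.not_lt_zero i)⟩
  | succ M ih =>
    obtain ⟨N1, hN1⟩ := ih
    obtain ⟨N2, hN2⟩ := hcoord M
    refine ⟨max N1 N2, fun y' z' h1 h2 i hi => ?_⟩
    rcases Nat.lt_succ_iff_lt_or_eq.mp hi with h3 | rfl
    · exact hN1 y' z' h1 (h2.mono (le_max_left _ _)) i h3
    · exact hN2 y' z' h1 (h2.mono (le_max_right _ _))

theorem good_Gr (c d : OC) (hne : ∃ y z, Gr c d y z) : Good (Gr c d) where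
  func := by
    rintro y z z' ⟨x, v, h1, h2, h3, h4⟩ ⟨x', v', h1', h2', h3', h4'⟩
    have hx : x = x' := by
      have := congrArg dec (h1.symm.trans h1')
      rwa [dec_kk, dec_kk] at this
    subst hx
    rw [h2, h2', h3.unique h3']
  lim := Gr_lim c d
  even := by
    rintro y z ⟨x, v, h1, h2, h3, h4⟩ i
    rw [h1]
    exact kk_even x i
  ne := hne

/-- For every pair of codes there is a homeomorphism of Baire space extending the induced partial
homeomorphism and respecting `E0` elsewhere. -/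
theorem exists_homeo_Gr (c d : OC) : ∃ g : (ℕ → ℕ) ≃ₜ (ℕ → ℕ), (∀ y z, Gr c d y z → g y = z) ∧
    ∀ y, (¬ ∃ z, Gr c d y z) → E0 y (g y) := by
  by_cases hne : ∃ y z, Gr c d y z
  · have hG := good_Gr c d hne
    have hG' : Good (flipR (Gr c d)) := by
      rw [flipR_Gr]
      apply good_Gr
      obtain ⟨y, z, h⟩ := hne
      refine ⟨z, y, ?_⟩
      rw [← flipR_Gr]
      exact h
    exact exists_homeo hG hG'
  · refine ⟨Homeomorph.refl _, ?_, fun y _ => E0.refl y⟩
    intro y z h
    exact absurd ⟨y, z, h⟩ hne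

end Pool.Agent.W_MP_ef54cf_lc
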