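import Pool.Agent.W_MP_ef54cf_lc.Oracle

/-!
The halting problem relative to `g : ℕ → ℕ`, in a uniform way.
-/

open Encodable Denumerable Nat.Partrec

namespace Pool.Agent.W_MP_ef54cf_lc

namespace OC

/-- Finite oracle given by a list. -/
def look (σ : List ℕ) : ℕ → Part ℕ := fun n => Part.ofOption (σ[n]?)

theorem partrec_eval_rfind (a : OC)
    (h1 : Partrec (fun p : List ℕ × ℕ => a.eval (look p.1) p.2)) :
    Partrec (fun p : List ℕ × ℕ => (rfind a).eval (look p.1) p.2) := by
  have e1 : Computable (fun q : (List ℕ × ℕ) × ℕ => (q.1.1, Nat.pair q.1.2 q.2)) := by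
    refine (Computable.fst.comp Computable.fst).pair ?_
    exact (Primrec₂.natPair.comp (Primrec.snd.comp Primrec.fst) Primrec.snd).to_comp
  have e2 : Partrec (fun q : (List ℕ × ℕ) × ℕ => a.eval (look q.1.1) (Nat.pair q.1.2 q.2)) :=
    h1.comp e1
  have e3 : Computable₂ (fun (_ : (List ℕ × ℕ) × ℕ) (m : ℕ) => decide (m = 0)) := by
    have : Primrec (fun m : ℕ => decide (m = 0)) :=
      PrimrecPred.decide (Primrec.eq.comp Primrec.id (Primrec.const 0))
    exact (this.comp Primrec.snd).to_comp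
  have e4 := Partrec.map e2 e3
  have e5 : Partrec₂ (fun (q : List ℕ × ℕ) (n : ℕ) =>
      (a.eval (look q.1) (Nat.pair q.2 n)).map fun m => decide (m = 0)) := e4
  exact Partrec.rfind e5

theorem partrec_eval_prec (a b : OC)
    (h1 : Partrec (fun p : List ℕ × ℕ => a.eval (look p.1) p.2))
    (h2 : Partrec (fun p : List ℕ × ℕ => b.eval (look p.1) p.2)) :
    Partrec (fun p : List ℕ × ℕ => (prec a b).eval (look p.1) p.2) := by
  have e1 : Computable (fun p : List ℕ × ℕ => (Nat.unpair p.2).2) :=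
    Computable.snd.comp (Computable.unpair.comp Computable.snd)
  have e2 : Computable (fun p : List ℕ × ℕ => (p.1, (Nat.unpair p.2).1)) :=
    Computable.fst.pair (Computable.fst.comp (Computable.unpair.comp Computable.snd))
  have e3 : Partrec (fun p : List ℕ × ℕ => a.eval (look p.1) (Nat.unpair p.2).1) := h1.comp e2
  have e4 : Primrec (fun q : (List ℕ × ℕ) × (ℕ × ℕ) =>
      Nat.pair (Nat.unpair q.1.2).1 (Nat.pair q.2.1 q.2.2)) :=
    Primrec₂.natPair.comp (Primrec.fst.comp (Primrec.unpair.comp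
        (Primrec.snd.comp Primrec.fst))) (Primrec₂.natPair.comp
          (Primrec.fst.comp Primrec.snd) (Primrec.snd.comp Primrec.snd))
  have e5 : Computable (fun q : (List ℕ × ℕ) × (ℕ × ℕ) =>
      (q.1.1, Nat.pair (Nat.unpair q.1.2).1 (Nat.pair q.2.1 q.2.2))) :=
    (Computable.fst.comp Computable.fst).pair e4.to_comp
  have e6 : Partrec (fun q : (List ℕ × ℕ) × (ℕ × ℕ) => b.eval (look q.1.1)
        (Nat.pair (Nat.unpair q.1.2).1 (Nat.pair q.2.1 q.2.2))) := h2.comp e5
  have e7 : Partrec₂ (fun (p : List ℕ × ℕ) (q : ℕ × ℕ) => b.eval (look p.1)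
        (Nat.pair (Nat.unpair p.2).1 (Nat.pair q.1 q.2))) := e6
  have e8 := Partrec.nat_rec e1 e3 e7
  exact e8

theorem partrec_eval (c : OC) : Partrec (fun p : List ℕ × ℕ => c.eval (look p.1) p.2) := by
  induction c with
  | zero => exact (Computable.const 0).partrec
  | succ => exact (Computable.succ.comp Computable.snd).partrec
  | left =>
    exact (Computable.fst.comp (Computable.unpair.comp Computable.snd)).partrec
  | right =>
    exact (Computable.snd.comp (Computable.unpair.comp Computable.snd)).partrec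
  | oracle =>
    exact Computable.ofOption (Computable.list_getElem?.comp Computable.fst Computable.snd)
  | pair a b h1 h2 =>
    refine Partrec.bind h1 (g := fun (p : List ℕ × ℕ) (u : ℕ) =>
      (b.eval (look p.1) p.2).map (Nat.pair u)) ?_
    refine Partrec.map (h2.comp Computable.fst) (g := fun (q : (List ℕ × ℕ) × ℕ) (v : ℕ) =>
      Nat.pair q.2 v) ?_
    exact (Primrec₂.natPair.comp (Primrec.snd.comp Primrec.fst) Primrec.snd).to_comp
  | comp a b h1 h2 =>
    refine Partrec.bind h2 (g := fun (p : List ℕ × ℕ) (u : ℕ) => a.eval (look p.1) u) ?_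
    exact h1.comp ((Computable.fst.comp Computable.fst).pair Computable.snd)
  | prec a b h1 h2 => exact partrec_eval_prec a b h1 h2
  | rfind a h1 => exact partrec_eval_rfind a h1

/-- A total oracle. -/
def tot (g : ℕ → ℕ) : ℕ → Part ℕ := fun n => Part.some (g n)

/-- The list of the first `s` values of `g`. -/
def pre (g : ℕ → ℕ) (s : ℕ) : List ℕ := (List.range s).map g

theorem pre_succ (g : ℕ → ℕ) (s : ℕ) : pre g (s + 1) = pre g s ++ [g s] := by
  simp [pre, List.range_succ]

theorem pre_congr {g g' : ℕ → ℕ} {s : ℕ} (h : ∀ i, i < s → g i = g' i) : pre g s = pre g' s := by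
  unfold pre
  apply List.map_congr_left
  intro i hi
  exact h i (List.mem_range.mp hi)

theorem look_pre (g : ℕ → ℕ) (s : ℕ) : look (pre g s) = res (tot g) s := by
  funext n
  unfold look pre res tot
  by_cases h : n < s
  · simp [h]
  · simp [h]

theorem dom_iff_exists_look (c : OC) (g : ℕ → ℕ) (n : ℕ) :
    (c.eval (tot g) n).Dom ↔ ∃ s, (c.eval (look (pre g s)) n).Dom := by
  constructor
  · intro h
    obtain ⟨s, hs⟩ := eval_use (tot g) c n _ (Part.get_mem h)
    refine ⟨s, ?_⟩
    rw [look_pre]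
    exact Part.dom_iff_mem.mpr ⟨_, hs⟩
  · rintro ⟨s, hs⟩
    rw [look_pre] at hs
    obtain ⟨b, hb⟩ := Part.dom_iff_mem.mp hs
    exact Part.dom_iff_mem.mpr ⟨b, eval_mono (res_le (tot g) s) _ _ _ hb⟩

/-- The (decidable) halting relation. -/
def H (g : ℕ → ℕ) (m t : ℕ) : Bool :=
  (Code.evaln t.unpair.1 (ofNat Code m.unpair.1)
    (Nat.pair (encode (pre g t.unpair.2)) m.unpair.2)).isSome

theorem H_congr {g g' : ℕ → ℕ} {m t : ℕ} (h : ∀ i, i < t → g i = g' i) : H g m t = H g' m t := by
  unfold H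
  rw [pre_congr (fun i hi => h i (lt_of_lt_of_le hi (Nat.unpair_right_le t)))]

/-- Halting of any oracle machine is one instance of the halting relation, uniformly in the
oracle. -/
theorem exists_index (c : OC) : ∃ e : ℕ, ∀ (g : ℕ → ℕ) (n : ℕ),
    (c.eval (tot g) n).Dom ↔ ∃ t, H g (Nat.pair e n) t = true := by
  have hp : Nat.Partrec (fun m => Part.bind (Part.ofOption (decode (α := List ℕ × ℕ) m))
      fun a => (c.eval (look a.1) a.2).map encode) := partrec_eval c
  obtain ⟨k, hk⟩ := Code.exists_code.mp hp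
  have hk' : ∀ (σ : List ℕ) (n : ℕ), (k.eval (Nat.pair (encode σ) n)).Dom ↔
      (c.eval (look σ) n).Dom := by
    intro σ n
    rw [hk]
    have : decode (α := List ℕ × ℕ) (Nat.pair (encode σ) n) = some (σ, n) := by
      simp
    simp only [this, Part.coe_some, Part.bind_some, Part.map_Dom]
  refine ⟨encode k, fun g n => ?_⟩
  rw [dom_iff_exists_look]
  constructor
  · rintro ⟨s, hs⟩
    rw [← hk'] at hs
    obtain ⟨b, hb⟩ := Part.dom_iff_mem.mp hs
    obtain ⟨q, hq⟩ := Code.evaln_complete.mp hb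
    refine ⟨Nat.pair q s, ?_⟩
    unfold H
    simp only [Nat.unpair_pair, ofNat_encode]
    rw [Option.mem_def] at hq
    rw [hq]
    rfl
  · rintro ⟨t, ht⟩
    unfold H at ht
    simp only [Nat.unpair_pair, ofNat_encode] at ht
    obtain ⟨b, hb⟩ := Option.isSome_iff_exists.mp ht
    exact ⟨t.unpair.2, (hk' _ _).mp (Part.dom_iff_mem.mpr
      ⟨b, Code.evaln_sound (k := t.unpair.1) hb⟩)⟩

/-- Uniformly computable total functionals. -/
def UC (f : (ℕ → ℕ) → ℕ → ℕ) : Prop := ∃ c : OC, ∀ g n, c.eval (tot g) n = Part.some (f g n)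

theorem UC.of_computable {f : ℕ → ℕ} (hf : Computable f) : UC (fun _ => f) := by
  have h : Nat.Partrec (fun n => Part.some (f n)) := Partrec.nat_iff.mp hf.partrec
  obtain ⟨c, hc⟩ := exists_of_partrec h
  exact ⟨c, fun g n => by rw [hc]⟩

theorem UC.oracle : UC (fun g => g) := ⟨OC.oracle, fun _ _ => rfl⟩

theorem UC.comp {f h : (ℕ → ℕ) → ℕ → ℕ} (hf : UC f) (hh : UC h) :
    UC (fun g n => f g (h g n)) := by
  obtain ⟨a, ha⟩ := hf
  obtain ⟨b, hb⟩ := hh
  exact ⟨OC.comp a b, fun g n => by simp only [eval, hb, Part.bind_some, ha]⟩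

theorem UC.pair {f h : (ℕ → ℕ) → ℕ → ℕ} (hf : UC f) (hh : UC h) :
    UC (fun g n => Nat.pair (f g n) (h g n)) := by
  obtain ⟨a, ha⟩ := hf
  obtain ⟨b, hb⟩ := hh
  exact ⟨OC.pair a b, fun g n => by simp only [eval, hb, ha, Part.bind_some, Part.map_some]⟩

theorem UC.comp₂ {F : ℕ → ℕ → ℕ} (hF : Computable₂ F) {f h : (ℕ → ℕ) → ℕ → ℕ} (hf : UC f)
    (hh : UC h) : UC (fun g n => F (f g n) (h g n)) := by
  have h1 : Computable (fun q : ℕ => F q.unpair.1 q.unpair.2) :=
    hF.comp (Computable.fst.comp Computable.unpair) (Computable.snd.comp Computable.unpair)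
  have h2 := (UC.of_computable h1).comp (hf.pair hh)
  simpa only [Nat.unpair_pair] using h2

theorem UC.comp₁ {F : ℕ → ℕ} (hF : Computable F) {f : (ℕ → ℕ) → ℕ → ℕ} (hf : UC f) :
    UC (fun g n => F (f g n)) := (UC.of_computable hF).comp hf

theorem UC.prec {f h : (ℕ → ℕ) → ℕ → ℕ} (hf : UC f) (hh : UC h) :
    UC (fun g p => Nat.rec (motive := fun _ => ℕ) (f g p.unpair.1)
      (fun y IH => h g (Nat.pair p.unpair.1 (Nat.pair y IH))) p.unpair.2) := by
  obtain ⟨a, ha⟩ := hf
  obtain ⟨b, hb⟩ := hh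
  refine ⟨OC.prec a b, fun g p => ?_⟩
  simp only [eval]
  generalize p.unpair.2 = m
  induction m with
  | zero => exact ha _ _
  | succ m ih =>
    simp only
    rw [ih, Part.bind_some, hb]

/-- Appending to coded lists. -/
def app (l v : ℕ) : ℕ := encode (((decode (α := List ℕ) l).getD []) ++ [v])

theorem app_computable : Computable₂ app := by
  have h1 : Primrec₂ (fun (l v : ℕ) => ((decode (α := List ℕ) l).getD []) ++ [v]) := by
    refine Primrec.list_concat.comp ?_ Primrec.snd
    exact Primrec.option_getD.comp (Primrec.decode.comp Primrec.fst) (Primrec.const [])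
  exact (Primrec.encode.comp h1).to_comp

theorem UC.encode_pre : UC (fun g s => encode (pre g s)) := by
  have h0 : UC (fun g q => app q.unpair.2.unpair.2 (g q.unpair.2.unpair.1)) := by
    refine UC.comp₂ app_computable (f := fun _ q => q.unpair.2.unpair.2)
      (h := fun g q => g q.unpair.2.unpair.1) (UC.of_computable ?_) ?_
    · exact (Primrec.snd.comp (Primrec.unpair.comp (Primrec.snd.comp Primrec.unpair))).to_comp
    · refine UC.comp (f := fun g => g) (h := fun _ q => q.unpair.2.unpair.1) UC.oracle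
        (UC.of_computable ?_)
      exact (Primrec.fst.comp (Primrec.unpair.comp (Primrec.snd.comp Primrec.unpair))).to_comp
  have h1 := UC.prec (f := fun _ _ => 0)
    (h := fun g q => app q.unpair.2.unpair.2 (g q.unpair.2.unpair.1))
    (UC.of_computable (Computable.const 0)) h0
  have h2 : UC (fun _ s => Nat.pair 0 s) := by
    refine UC.of_computable ?_
    exact (Primrec₂.natPair.comp (Primrec.const 0) Primrec.id).to_comp
  have h3 := UC.comp h1 h2
  simp only [Nat.unpair_pair] at h3
  have h4 : ∀ (g : ℕ → ℕ) (s : ℕ), Nat.rec (motive := fun _ => ℕ) 0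
      (fun y IH => app IH (g y)) s = encode (pre g s) := by
    intro g s
    induction s with
    | zero => rfl
    | succ s ih =>
      simp only
      rw [ih, pre_succ]
      unfold app
      rw [encodek]
      rfl
  have h5 : (fun (g : ℕ → ℕ) (s : ℕ) => encode (pre g s)) = (fun g s =>
      Nat.rec (motive := fun _ => ℕ) 0 (fun y IH => app IH (g y)) s) := by
    funext g s
    exact (h4 g s).symm
  rw [h5]
  exact h3

/-- The halting relation, `0` for true. -/
def HF (q l : ℕ) : ℕ :=
  if (Code.evaln q.unpair.2.unpair.1 (ofNat Code q.unpair.1.unpair.1)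
    (Nat.pair l q.unpair.1.unpair.2)).isSome then 0 else 1

theorem HF_computable : Computable₂ HF := by
  have p1 : Primrec (fun q : ℕ × ℕ => q.1.unpair.1) :=
    Primrec.fst.comp (Primrec.unpair.comp Primrec.fst)
  have p2 : Primrec (fun q : ℕ × ℕ => q.1.unpair.2) :=
    Primrec.snd.comp (Primrec.unpair.comp Primrec.fst)
  have p3 : Primrec (fun q : ℕ × ℕ => q.1.unpair.2.unpair.1) :=
    Primrec.fst.comp (Primrec.unpair.comp p2)
  have p4 : Primrec (fun q : ℕ × ℕ => ofNat Code q.1.unpair.1.unpair.1) :=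
    (Primrec.ofNat Code).comp (Primrec.fst.comp (Primrec.unpair.comp p1))
  have p5 : Primrec (fun q : ℕ × ℕ => Nat.pair q.2 q.1.unpair.1.unpair.2) :=
    Primrec₂.natPair.comp Primrec.snd (Primrec.snd.comp (Primrec.unpair.comp p1))
  have p6 : Primrec (fun q : ℕ × ℕ => Code.evaln q.1.unpair.2.unpair.1
      (ofNat Code q.1.unpair.1.unpair.1) (Nat.pair q.2 q.1.unpair.1.unpair.2)) :=
    Code.primrec_evaln.comp ((p3.pair p4).pair p5)
  have p7 : Primrec (fun q : ℕ × ℕ => (Code.evaln q.1.unpair.2.unpair.1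
      (ofNat Code q.1.unpair.1.unpair.1) (Nat.pair q.2 q.1.unpair.1.unpair.2)).isSome) :=
    Primrec.option_isSome.comp p6
  have p8 : Primrec (fun q : ℕ × ℕ => HF q.1 q.2) := by
    have := Primrec.cond p7 (Primrec.const 0) (Primrec.const 1)
    refine this.of_eq (fun q => ?_)
    unfold HF
    cases (Code.evaln q.1.unpair.2.unpair.1
      (ofNat Code q.1.unpair.1.unpair.1) (Nat.pair q.2 q.1.unpair.1.unpair.2)).isSome <;> simp
  exact p8.to_comp

/-- `0` if the halting relation holds and `1` otherwise. -/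
def HN (g : ℕ → ℕ) (q : ℕ) : ℕ := if H g q.unpair.1 q.unpair.2 then 0 else 1

theorem UC.HN : UC HN := by
  have h1 : UC (fun g q => encode (pre g q.unpair.2.unpair.2)) := by
    refine UC.comp (h := fun _ q => q.unpair.2.unpair.2) UC.encode_pre (UC.of_computable ?_)
    exact (Primrec.snd.comp (Primrec.unpair.comp (Primrec.snd.comp Primrec.unpair))).to_comp
  have h2 := UC.comp₂ HF_computable (f := fun _ q => q) (UC.of_computable Computable.id) h1
  exact h2

/-- The halting relation is uniformly semidecidable. -/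
theorem exists_halt : ∃ a : OC, ∀ (g : ℕ → ℕ) (m : ℕ),
    (a.eval (tot g) m).Dom ↔ ∃ t, H g m t = true := by
  obtain ⟨h, hh⟩ := UC.HN
  refine ⟨rfind h, fun g m => ?_⟩
  rw [Part.dom_iff_mem]
  constructor
  · rintro ⟨t, ht⟩
    rw [mem_eval_rfind] at ht
    obtain ⟨⟨u, hu, hu'⟩, -⟩ := ht
    rw [hh, Part.mem_some_iff] at hu
    subst hu
    refine ⟨t, ?_⟩
    unfold HN at hu'
    simp only [Nat.unpair_pair] at hu'
    by_contra hne
    rw [Bool.not_eq_true] at hne
    rw [hne] at hu'
    simp at hu'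
  · intro hex
    refine ⟨Nat.find hex, ?_⟩
    rw [mem_eval_rfind]
    refine ⟨⟨_, by rw [hh]; exact Part.mem_some _, ?_⟩, fun k hk => ⟨_, by
      rw [hh]; exact Part.mem_some _, ?_⟩⟩
    · unfold HN
      simp only [Nat.unpair_pair]
      rw [Nat.find_spec hex]
      simp
    · unfold HN
      simp only [Nat.unpair_pair]
      have := Nat.find_min hex hk
      rw [Bool.not_eq_true] at this
      rw [this]
      simp

end OC

end Pool.Agent.W_MP_ef54cf_lc
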