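import Mathlib

/-!
Measurable Schröder-Bernstein with a pointwise relation, and an isomorphism criterion for
countable Borel equivalence relations.
-/

open Set Function

namespace Pool.Agent.W_MP_ef54cf_lc

theorem exists_fixed {X Y : Type} [MeasurableSpace X] [MeasurableSpace Y]
    {f : X → Y} {g : Y → X} (hf : MeasurableEmbedding f) (hg : MeasurableEmbedding g) :
    ∃ A : Set X, MeasurableSet A ∧ (g '' (f '' A)ᶜ)ᶜ = A := by
  let F : Set X → Set X := fun A => (g '' (f '' A)ᶜ)ᶜ
  have Fmono : ∀ {A B}, A ⊆ B → F A ⊆ F B := fun h =>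
    compl_subset_compl.mpr <| Set.image_mono <| compl_subset_compl.mpr <| Set.image_mono h
  let Z : ℕ → Set X := fun n => F^[n] univ
  refine ⟨iInter Z, ?_, ?_⟩
  · refine MeasurableSet.iInter fun n ↦ ?_
    induction n with
    | zero => exact MeasurableSet.univ
    | succ n ih =>
      show MeasurableSet (F^[n + 1] univ)
      rw [Function.iterate_succ', Function.comp_apply]
      exact (hg.measurableSet_image' (hf.measurableSet_image' ih).compl).compl
  apply subset_antisymm
  · apply subset_iInter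
    intro n
    cases n
    · exact subset_univ _
    · show F (iInter Z) ⊆ F^[_ + 1] univ
      rw [Function.iterate_succ', Function.comp_apply]
      exact Fmono (iInter_subset _ _)
  · rintro x hx ⟨y, hy, rfl⟩
    rw [mem_iInter] at hx
    apply hy
    rw [hf.injective.injOn.image_iInter_eq]
    rw [mem_iInter]
    intro n
    by_contra h
    have hn : g y ∈ F^[n + 1] univ := hx (n + 1)
    rw [Function.iterate_succ', Function.comp_apply] at hn
    exact hn ⟨y, h, rfl⟩

theorem exists_sb {X Y : Type} [MeasurableSpace X] [StandardBorelSpace X] [MeasurableSpace Y]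
    [StandardBorelSpace Y] {f : X → Y} {g : Y → X} (hf : Measurable f) (hfi : Injective f)
    (hg : Measurable g) (hgi : Injective g) (R : X → Y → Prop) (h1 : ∀ x, R x (f x))
    (h2 : ∀ y, R (g y) y) : ∃ Φ : X ≃ᵐ Y, ∀ x, R x (Φ x) := by
  classical
  have hfe := hf.measurableEmbedding hfi
  have hge := hg.measurableEmbedding hgi
  obtain ⟨A, hA, hs⟩ := exists_fixed hfe hge
  obtain ⟨g', hg', hgg'⟩ := hge.exists_measurable_extend (g := (id : Y → Y)) measurable_id
    (fun x => ⟨f x⟩)
  have g'g : LeftInverse g' g := fun y => congrFun hgg' y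
  have hns : g '' (f '' A)ᶜ = Aᶜ := compl_injective (by simp [hs])
  have hg'ns : g' '' Aᶜ = (f '' A)ᶜ := by rw [← hns, g'g.image_image]
  let h : X → Y := A.piecewise f g'
  have hsurj : Surjective h := by
    rw [← range_eq_univ, range_piecewise, hg'ns, union_compl_self]
  have hinj : Injective h := by
    refine (injective_piecewise_iff _).2 ⟨hfi.injOn, ?_, ?_⟩
    · intro x hx y hy hxy
      obtain ⟨x', _, rfl⟩ : x ∈ g '' (f '' A)ᶜ := by rwa [hns]
      obtain ⟨y', _, rfl⟩ : y ∈ g '' (f '' A)ᶜ := by rwa [hns]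
      rw [g'g _, g'g _] at hxy
      rw [hxy]
    · intro x hx y hy hxy
      obtain ⟨y', hy', rfl⟩ : y ∈ g '' (f '' A)ᶜ := by rwa [hns]
      rw [g'g _] at hxy
      exact hy' ⟨x, hx, hxy⟩
  have hmeas : Measurable h := hf.piecewise hA hg'
  have hemb := hmeas.measurableEmbedding hinj
  refine ⟨⟨Equiv.ofBijective h ⟨hinj, hsurj⟩, hmeas, ?_⟩, ?_⟩
  · intro s hs'
    have : (Equiv.ofBijective h ⟨hinj, hsurj⟩).symm ⁻¹' s = h '' s := by
      ext y
      constructor
      · intro hy
        exact ⟨_, hy, Equiv.ofBijective_apply_symm_apply h ⟨hinj, hsurj⟩ y⟩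
      · rintro ⟨x, hx, rfl⟩
        show (Equiv.ofBijective h ⟨hinj, hsurj⟩).symm (h x) ∈ s
        rw [Equiv.ofBijective_symm_apply_apply h ⟨hinj, hsurj⟩ x]
        exact hx
    show MeasurableSet ((Equiv.ofBijective h ⟨hinj, hsurj⟩).symm ⁻¹' s)
    rw [this]
    exact hemb.measurableSet_image' hs'
  · intro x
    show R x (h x)
    by_cases hx : x ∈ A
    · rw [show h x = f x from Set.piecewise_eq_of_mem A f g' hx]
      exact h1 x
    · rw [show h x = g' x from Set.piecewise_eq_of_notMem A f g' hx]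
      obtain ⟨y', hy', rfl⟩ : x ∈ g '' (f '' A)ᶜ := by rwa [hns]
      rw [g'g y']
      exact h2 y'

/-- Isomorphism criterion. -/
theorem exists_iso {X Y : Type} [MeasurableSpace X] [StandardBorelSpace X] [MeasurableSpace Y]
    [StandardBorelSpace Y] (E : X → X → Prop) (E' : Y → Y → Prop)
    (hr : ∀ x, E x x) (hr' : ∀ y, E' y y)
    (S : ℕ → X → X) (hS : ∀ n, Measurable (S n)) (hE : ∀ x v, E x v → ∃ n, S n x = v)
    (S' : ℕ → Y → Y) (hS' : ∀ n, Measurable (S' n)) (hE' : ∀ y w, E' y w → ∃ n, S' n y = w)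
    (pad : ℕ → X → X) (hpad : ∀ n, Measurable (pad n))
    (hpi : ∀ n m x v, pad n x = pad m v → n = m ∧ x = v) (hpE : ∀ n x, E x (pad n x))
    (pad' : ℕ → Y → Y) (hpad' : ∀ n, Measurable (pad' n))
    (hpi' : ∀ n m y w, pad' n y = pad' m w → n = m ∧ y = w) (hpE' : ∀ n y, E' y (pad' n y))
    (L : X → Y → Prop) (hL : ∀ x y v w, L x y → L v w → (E x v ↔ E' y w))
    (hLE : ∀ x v y, E x v → L x y → L v y) (hLE' : ∀ x y w, E' y w → L x y → L x w)
    (a : X → Y) (ha : Measurable a) (hLa : ∀ x, L x (a x))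
    (b : Y → X) (hb : Measurable b) (hLb : ∀ y, L (b y) y) :
    ∃ Φ : X ≃ᵐ Y, ∀ x, L x (Φ x) := by
  classical
  have h1 : ∀ x, ∃ n, S n (b (a x)) = x := fun x =>
    hE _ _ ((hL _ _ _ _ (hLb (a x)) (hLa x)).mpr (hr' _))
  have h2 : ∀ y, ∃ n, S' n (a (b y)) = y := fun y =>
    hE' _ _ ((hL _ _ _ _ (hLa (b y)) (hLb y)).mp (hr _))
  let α : X → Y := fun x => pad' (Nat.find (h1 x)) (a x)
  let β : Y → X := fun y => pad (Nat.find (h2 y)) (b y)
  have hα : Measurable α := Measurable.find (f := fun n x => pad' n (a x))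
    (p := fun n x => S n (b (a x)) = x) (fun n => (hpad' n).comp ha)
    (fun n => measurableSet_eq_fun ((hS n).comp (hb.comp ha)) measurable_id) h1
  have hβ : Measurable β := Measurable.find (f := fun n y => pad n (b y))
    (p := fun n y => S' n (a (b y)) = y) (fun n => (hpad n).comp hb)
    (fun n => measurableSet_eq_fun ((hS' n).comp (ha.comp hb)) measurable_id) h2
  have hαi : Injective α := by
    intro x v hxv
    obtain ⟨e1, e2⟩ := hpi' _ _ _ _ hxv
    have s1 := Nat.find_spec (h1 x)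
    have s2 := Nat.find_spec (h1 v)
    rw [← s1, ← s2, e1, e2]
  have hβi : Injective β := by
    intro y w hyw
    obtain ⟨e1, e2⟩ := hpi _ _ _ _ hyw
    have s1 := Nat.find_spec (h2 y)
    have s2 := Nat.find_spec (h2 w)
    rw [← s1, ← s2, e1, e2]
  exact exists_sb hα hαi hβ hβi L (fun x => hLE' _ _ _ (hpE' _ _) (hLa x))
    (fun y => hLE _ _ _ (hpE _ _) (hLb y))

end Pool.Agent.W_MP_ef54cf_lc
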