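import Pool.Agent.W_MP_ef54cf_lc.Tree
import Pool.Agent.W_MP_ef54cf_lc.SB

/-!
Measurability of the maps involved.
-/

open Set Function

namespace Pool.Agent.W_MP_ef54cf_lc

open OC

theorem measurable_of_agree {β : Type} [MeasurableSpace β] {f : (ℕ → Bool) → β} {t : ℕ}
    (h : ∀ x x', agree x x' t → f x = f x') : Measurable f := by
  let F : (Fin t → Bool) → β := fun p => f (fun i => if hi : i < t then p ⟨i, hi⟩ else false)
  have hF : Measurable F := measurable_of_countable F
  have hr : Measurable (fun (x : ℕ → Bool) (i : Fin t) => x i) :=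
    measurable_pi_lambda _ fun i => measurable_pi_apply _
  have : f = F ∘ (fun (x : ℕ → Bool) (i : Fin t) => x i) := by
    funext x
    apply h
    intro i hi
    simp [hi]
  rw [this]
  exact hF.comp hr

theorem measurableSet_of_agree {p : (ℕ → Bool) → Prop} {t : ℕ}
    (h : ∀ x x', agree x x' t → (p x ↔ p x')) : MeasurableSet {x | p x} := by
  have : Measurable p := measurable_of_agree (t := t) (fun x x' hx => propext (h x x' hx))
  exact measurableSet_setOfPred.mpr this

theorem measurableSet_H (n t : ℕ) : MeasurableSet {x : ℕ → Bool | H (nat x) n t = true} := by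
  refine measurableSet_of_agree (t := t) (fun x x' hx => ?_)
  rw [H_congr (agree_nat hx)]

theorem measurable_stage (n : ℕ) : Measurable (fun x : ℕ → Bool => stage (nat x) n) := by
  have hs : ∀ t, MeasurableSet {x : ℕ → Bool | stage (nat x) n = t + 1} := by
    intro t
    refine measurableSet_of_agree (t := t) (fun x x' hx => ?_)
    rw [stage_eq_succ, stage_eq_succ]
    have h1 : ∀ s, s ≤ t → H (nat x) n s = H (nat x') n s := fun s hst =>
      H_congr (agree_nat (hx.mono hst))
    rw [h1 t le_rfl]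
    refine and_congr_right fun _ => forall_congr' fun s => ?_
    constructor
    · intro h2 hst
      rw [← h1 s hst.le]
      exact h2 hst
    · intro h2 hst
      rw [h1 s hst.le]
      exact h2 hst
  refine measurable_to_countable' fun m => ?_
  rcases m with _ | t
  · have : (fun x : ℕ → Bool => stage (nat x) n) ⁻¹' {0} =
        (⋃ t, {x : ℕ → Bool | stage (nat x) n = t + 1})ᶜ := by
      ext x
      simp only [mem_preimage, mem_singleton_iff, mem_compl_iff, mem_iUnion, mem_ofPred_eq,
        not_exists]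
      constructor
      · intro h t
        omega
      · intro h
        by_contra hne
        exact h (stage (nat x) n - 1) (by omega)
    rw [this]
    exact (MeasurableSet.iUnion hs).compl
  · exact hs t

theorem measurable_kk : Measurable kk := by
  refine measurable_pi_lambda _ fun n => ?_
  have h1 : Measurable (fun x : ℕ → Bool => (stage (nat x) n, x n)) :=
    (measurable_stage n).prodMk (measurable_pi_apply n)
  have h2 : Measurable (fun q : ℕ × Bool => 2 * (2 * q.1 + q.2.toNat)) :=
    measurable_of_countable _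
  exact h2.comp h1

theorem measurable_dec : Measurable dec := by
  refine measurable_pi_lambda _ fun n => ?_
  have h2 : Measurable (fun k : ℕ => decide ((k / 2) % 2 = 1)) := measurable_of_countable _
  exact h2.comp (measurable_pi_apply n)

theorem measurable_ovl (τ : List ℕ) : Measurable (ovl τ) := by
  refine measurable_pi_lambda _ fun n => ?_
  have h2 : Measurable (fun k : ℕ => τ.getD n k) := measurable_of_countable _
  exact h2.comp (measurable_pi_apply n)

theorem InK_iff (y : ℕ → ℕ) : InK y ↔ ∃ τ : List ℕ, ovl τ y = kk (dec (ovl τ y)) := by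
  constructor
  · rintro ⟨x, N, hN⟩
    refine ⟨pre (kk x) N, ?_⟩
    have : ovl (pre (kk x) N) y = kk x := by
      funext i
      by_cases hi : i < N
      · rw [ovl_lt (by rwa [pre_length]), pre_getD _ _ _ _ hi]
      · rw [ovl_ge (by rw [pre_length]; omega), hN i (by omega)]
    rw [this, dec_kk]
  · rintro ⟨τ, hτ⟩
    refine ⟨dec (ovl τ y), τ.length, fun i hi => ?_⟩
    rw [← hτ, ovl_ge hi]

theorem measurableSet_InK : MeasurableSet {y : ℕ → ℕ | InK y} := by
  have : {y : ℕ → ℕ | InK y} = ⋃ τ : List ℕ, {y | ovl τ y = kk (dec (ovl τ y))} := by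
    ext y
    simp only [mem_ofPred_eq, mem_iUnion]
    exact InK_iff y
  rw [this]
  exact MeasurableSet.iUnion fun τ => measurableSet_eq_fun (measurable_ovl τ)
    (measurable_kk.comp (measurable_dec.comp (measurable_ovl τ)))

theorem measurableSet_eval (c : OC) (n b : ℕ) :
    MeasurableSet {x : ℕ → Bool | b ∈ c.eval (tot (nat x)) n} := by
  have : {x : ℕ → Bool | b ∈ c.eval (tot (nat x)) n} =
      ⋃ s, {x : ℕ → Bool | b ∈ c.eval (res (tot (nat x)) s) n} := by
    ext x
    simp only [mem_ofPred_eq, mem_iUnion]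
    exact ⟨fun h => eval_use _ c n b h, fun ⟨s, hs⟩ => eval_mono (res_le _ s) _ _ _ hs⟩
  rw [this]
  refine MeasurableSet.iUnion fun s => measurableSet_of_agree (t := s) (fun x x' hx => ?_)
  have h1 : res (tot (nat x)) s = res (tot (nat x')) s := by
    funext i
    unfold res
    split_ifs with hi
    · unfold tot
      rw [agree_nat hx i hi]
    · rfl
  rw [h1]

/-- The domain of a code as a map of Cantor space. -/
def DomC (c : OC) : Set (ℕ → Bool) :=
  {x | ∀ n, 0 ∈ c.eval (tot (nat x)) n ∨ 1 ∈ c.eval (tot (nat x)) n}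

theorem measurableSet_DomC (c : OC) : MeasurableSet (DomC c) := by
  have : DomC c = ⋂ n, ({x : ℕ → Bool | 0 ∈ c.eval (tot (nat x)) n} ∪
      {x : ℕ → Bool | 1 ∈ c.eval (tot (nat x)) n}) := by
    ext x
    simp [DomC]
  rw [this]
  exact MeasurableSet.iInter fun n => (measurableSet_eval c n 0).union (measurableSet_eval c n 1)

open Classical in
/-- The total extension of the map given by a code. -/
noncomputable def T (c : OC) (x : ℕ → Bool) : ℕ → Bool :=
  if x ∈ DomC c then fun n => decide (1 ∈ c.eval (tot (nat x)) n) else x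

theorem measurable_T (c : OC) : Measurable (T c) := by
  classical
  refine Measurable.ite (measurableSet_DomC c) ?_ measurable_id
  refine measurable_pi_lambda _ fun n => ?_
  refine measurable_to_bool ?_
  have : (fun x : ℕ → Bool => decide (1 ∈ c.eval (tot (nat x)) n)) ⁻¹' {true} =
      {x : ℕ → Bool | 1 ∈ c.eval (tot (nat x)) n} := by
    ext x
    simp
  rw [this]
  exact measurableSet_eval c n 1

theorem Comp_T {c : OC} {x : ℕ → Bool} (hx : x ∈ DomC c) : Comp c x (T c x) := by
  classical
  intro n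
  rw [Part.eq_some_iff]
  have hT : T c x n = decide (1 ∈ c.eval (tot (nat x)) n) := by
    unfold T
    rw [if_pos hx]
  have h2 : nat (T c x) n = (decide (1 ∈ c.eval (tot (nat x)) n)).toNat := by
    rw [← hT]
    rfl
  rw [h2]
  by_cases h1 : 1 ∈ c.eval (tot (nat x)) n
  · rw [decide_eq_true h1]
    exact h1
  · rw [decide_eq_false h1]
    exact (hx n).resolve_right h1

theorem T_eq {c : OC} {x v : ℕ → Bool} (h : Comp c x v) : T c x = v := by
  have hx : x ∈ DomC c := by
    intro n
    rw [h n]
    unfold nat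
    cases v n
    · left
      exact Part.mem_some _
    · right
      exact Part.mem_some _
  exact (Comp_T hx).unique h

theorem TR_T (c : OC) (x : ℕ → Bool) : TR (nat (T c x)) (nat x) := by
  by_cases hx : x ∈ DomC c
  · exact TR_iff.mpr ⟨c, Comp_T hx⟩
  · unfold T
    rw [if_neg hx]
    exact TR.refl _

open Classical in
/-- A countable family of maps generating Turing equivalence. -/
noncomputable def SS (m : ℕ) (x : ℕ → Bool) : ℕ → Bool :=
  if T (cd m.unpair.2) (T (cd m.unpair.1) x) = x then T (cd m.unpair.1) x else x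

theorem measurable_SS (m : ℕ) : Measurable (SS m) := by
  classical
  refine Measurable.ite ?_ (measurable_T _) measurable_id
  exact measurableSet_eq_fun ((measurable_T _).comp (measurable_T _)) measurable_id

theorem TE_SS (m : ℕ) (x : ℕ → Bool) : TE x (SS m x) := by
  unfold SS
  split_ifs with h
  · refine ⟨?_, TR_T _ _⟩
    have := TR_T (cd m.unpair.2) (T (cd m.unpair.1) x)
    rwa [h] at this
  · exact TE.refl x

theorem exists_SS {x v : ℕ → Bool} (h : TE x v) : ∃ m, SS m x = v := by
  obtain ⟨c, d, hc, hd⟩ := h.exists_Comp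
  obtain ⟨i, rfl⟩ := cd_surj c
  obtain ⟨j, rfl⟩ := cd_surj d
  refine ⟨Nat.pair i j, ?_⟩
  unfold SS
  rw [Nat.unpair_pair]
  simp only
  rw [T_eq hc, T_eq hd, if_pos rfl]

theorem continuous_JJ : Measurable JJ := by
  refine measurable_pi_lambda _ fun n => ?_
  -- the value at `n` only depends on the first `n + 1` entries
  let F : (Fin (n + 1) → ℕ) → Bool := fun p =>
    JJ (fun i => if hi : i < n + 1 then p ⟨i, hi⟩ else 0) n
  have hF : Measurable F := measurable_of_countable F
  have hr : Measurable (fun (x : ℕ → ℕ) (i : Fin (n + 1)) => x i) :=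
    measurable_pi_lambda _ fun i => measurable_pi_apply _
  have : (fun u : ℕ → ℕ => JJ u n) = F ∘ (fun (x : ℕ → ℕ) (i : Fin (n + 1)) => x i) := by
    funext u
    apply JJ_agree (n := n + 1) _ n (Nat.lt_succ_self n)
    intro i hi
    simp [hi]
  rw [this]
  exact hF.comp hr

/-- The family of reductions indexed by naturals. -/
noncomputable def J (n : ℕ) (u : ℕ → ℕ) : ℕ → Bool := JJ (fun i => Nat.pair n (u i))

theorem measurable_J (n : ℕ) : Measurable (J n) := by
  refine continuous_JJ.comp (measurable_pi_lambda _ fun i => ?_)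
  have h2 : Measurable (fun k : ℕ => Nat.pair n k) := measurable_of_countable _
  exact h2.comp (measurable_pi_apply i)

theorem J_TE (n : ℕ) {u v : ℕ → ℕ} (h : E0 u v) : TE (J n u) (J n v) :=
  JJ_TE (h.map (fun k => Nat.pair n k))

theorem eq_of_J {m n : ℕ} {u v : ℕ → ℕ} (h : TR (nat (J m u)) (nat (J n v))) :
    m = n ∧ E0 u v := by
  obtain ⟨N, hN⟩ := E0_of_JJ h
  have h1 : ∀ i, N ≤ i → m = n ∧ u i = v i := fun i hi => Nat.pair_eq_pair.mp (hN i hi)
  exact ⟨(h1 N le_rfl).1, N, fun i hi => (h1 i hi).2⟩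

/-- The set absorbing the filler points. -/
def Z : Set (ℕ → Bool) := {x | ∃ n u, ¬ InK u ∧ TE x (J n u)}

theorem Z_congr {x v : ℕ → Bool} (h : TE x v) (hx : x ∈ Z) : v ∈ Z := by
  obtain ⟨n, u, h1, h2⟩ := hx
  exact ⟨n, u, h1, h.symm.trans h2⟩

/-- The coded pairs. -/
def Ft : Set (ℕ → ℕ) := {w | (∀ i, (w i).unpair.1 = (w 0).unpair.1) ∧
  ¬ InK (fun i => (w i).unpair.2)}

theorem measurable_snd_code : Measurable (fun (w : ℕ → ℕ) (i : ℕ) => (w i).unpair.2) := by
  refine measurable_pi_lambda _ fun i => ?_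
  have h2 : Measurable (fun k : ℕ => k.unpair.2) := measurable_of_countable _
  exact h2.comp (measurable_pi_apply i)

theorem measurable_fst_code (i : ℕ) : Measurable (fun (w : ℕ → ℕ) => (w i).unpair.1) := by
  have h2 : Measurable (fun k : ℕ => k.unpair.1) := measurable_of_countable _
  exact h2.comp (measurable_pi_apply i)

theorem measurableSet_Ft : MeasurableSet Ft := by
  have : Ft = (⋂ i, {w : ℕ → ℕ | (w i).unpair.1 = (w 0).unpair.1}) ∩
      (fun (w : ℕ → ℕ) (i : ℕ) => (w i).unpair.2) ⁻¹' {y | InK y}ᶜ := by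
    ext w
    simp [Ft]
  rw [this]
  refine MeasurableSet.inter (MeasurableSet.iInter fun i => ?_)
    (measurable_snd_code measurableSet_InK.compl)
  exact measurableSet_eq_fun (measurable_fst_code i) (measurable_fst_code 0)

theorem JJ_eq_of_mem_Ft {w : ℕ → ℕ} (hw : w ∈ Ft) :
    JJ w = J (w 0).unpair.1 (fun i => (w i).unpair.2) := by
  unfold J
  congr 1
  funext i
  have := hw.1 i
  simp only
  rw [← this, Nat.pair_unpair]

theorem mem_Z_iff (x : ℕ → Bool) : x ∈ Z ↔ ∃ m, SS m x ∈ JJ '' Ft := by
  constructor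
  · rintro ⟨n, u, h1, h2⟩
    obtain ⟨m, hm⟩ := exists_SS h2
    refine ⟨m, fun i => Nat.pair n (u i), ⟨?_, ?_⟩, ?_⟩
    · intro i
      simp
    · simpa using h1
    · rw [hm]
      rfl
  · rintro ⟨m, w, hw, hm⟩
    refine ⟨(w 0).unpair.1, fun i => (w i).unpair.2, hw.2, ?_⟩
    rw [← JJ_eq_of_mem_Ft hw, hm]
    exact TE_SS m x

theorem measurableEmbedding_JJ : MeasurableEmbedding JJ :=
  continuous_JJ.measurableEmbedding JJ_injective

theorem measurableSet_image : MeasurableSet (JJ '' Ft) :=
  measurableEmbedding_JJ.measurableSet_image' measurableSet_Ft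

theorem measurableSet_Z : MeasurableSet Z := by
  have : Z = ⋃ m, SS m ⁻¹' (JJ '' Ft) := by
    ext x
    rw [mem_Z_iff]
    simp only [mem_iUnion]
    rfl
  rw [this]
  exact MeasurableSet.iUnion fun m => measurable_SS m measurableSet_image

/-- Measurable choice on `Z`. -/
theorem exists_choice : ∃ (nn : (ℕ → Bool) → ℕ) (uu : (ℕ → Bool) → (ℕ → ℕ)), Measurable nn ∧
    Measurable uu ∧ ∀ x ∈ Z, ¬ InK (uu x) ∧ TE x (J (nn x) (uu x)) := by
  classical
  obtain ⟨ψ, hψ, hψJ⟩ := measurableEmbedding_JJ.exists_measurable_extend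
    (g := (id : (ℕ → ℕ) → (ℕ → ℕ))) measurable_id (fun _ => ⟨fun _ => 0⟩)
  have hex : ∀ x, ∃ m, SS m x ∈ JJ '' Ft ∨ x ∉ Z := by
    intro x
    by_cases hx : x ∈ Z
    · obtain ⟨m, hm⟩ := (mem_Z_iff x).mp hx
      exact ⟨m, Or.inl hm⟩
    · exact ⟨0, Or.inr hx⟩
  have hmeas : ∀ m, MeasurableSet {x | SS m x ∈ JJ '' Ft ∨ x ∉ Z} := fun m =>
    (measurable_SS m measurableSet_image).union measurableSet_Z.compl
  let w : (ℕ → Bool) → (ℕ → ℕ) := fun x => ψ (SS (Nat.find (hex x)) x)
  have hw : Measurable w := Measurable.find (f := fun m x => ψ (SS m x))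
    (p := fun m x => SS m x ∈ JJ '' Ft ∨ x ∉ Z) (fun m => hψ.comp (measurable_SS m)) hmeas hex
  refine ⟨fun x => (w x 0).unpair.1, fun x i => (w x i).unpair.2,
    (measurable_fst_code 0).comp hw, measurable_snd_code.comp hw, ?_⟩
  intro x hx
  have h1 : SS (Nat.find (hex x)) x ∈ JJ '' Ft :=
    (Nat.find_spec (hex x)).resolve_right (fun h => h hx)
  obtain ⟨w', hw', hw''⟩ := h1
  have h2 : w x = w' := by
    show ψ (SS (Nat.find (hex x)) x) = w'
    rw [← hw'']
    exact congrFun hψJ w'
  show ¬ InK (fun i => (w x i).unpair.2) ∧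
    TE x (J (w x 0).unpair.1 (fun i => (w x i).unpair.2))
  rw [h2]
  refine ⟨hw'.2, ?_⟩
  rw [← JJ_eq_of_mem_Ft hw', hw'']
  exact TE_SS _ x

end Pool.Agent.W_MP_ef54cf_lc
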