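import Mathlib

/-!
Oracle machines: codes, evaluation relative to a partial oracle, use principle, substitution, and
the link with `Nat.RecursiveIn`.
-/

namespace Pool.Agent.W_MP_ef54cf_lc

/-- Codes of oracle machines. -/
inductive OC : Type
  | zero : OC
  | succ : OC
  | left : OC
  | right : OC
  | oracle : OC
  | pair : OC → OC → OC
  | comp : OC → OC → OC
  | prec : OC → OC → OC
  | rfind : OC → OC
  deriving Countable

namespace OC

/-- Evaluation of a code relative to a partial oracle. -/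
def eval (g : ℕ → Part ℕ) : OC → (ℕ → Part ℕ)
  | zero => fun _ => Part.some 0
  | succ => fun n => Part.some (n + 1)
  | left => fun n => Part.some (Nat.unpair n).1
  | right => fun n => Part.some (Nat.unpair n).2
  | oracle => g
  | pair a b => fun n => (eval g a n).bind fun u => (eval g b n).map (Nat.pair u)
  | comp a b => fun n => (eval g b n).bind (eval g a)
  | prec a b => fun p =>
      Nat.rec (motive := fun _ => Part ℕ) (eval g a (Nat.unpair p).1)
        (fun y IH => IH.bind fun i => eval g b (Nat.pair (Nat.unpair p).1 (Nat.pair y i)))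
        (Nat.unpair p).2
  | rfind a => fun x => Nat.rfind fun n => (eval g a (Nat.pair x n)).map fun m => decide (m = 0)

theorem seq_eq (f h : ℕ → Part ℕ) : (fun n => (f n).bind fun u => (h n).map (Nat.pair u)) =
    (fun n => Nat.pair <$> f n <*> h n) := by
  funext n
  simp [Seq.seq]

/-- A partial function is recursive in `g` iff it is the evaluation of some code. -/
theorem recursiveIn_iff {g f : ℕ → Part ℕ} :
    Nat.RecursiveIn {g} f ↔ ∃ c : OC, c.eval g = f := by
  constructor
  · intro h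
    induction h with
    | zero => exact ⟨zero, rfl⟩
    | succ => exact ⟨succ, rfl⟩
    | left => exact ⟨left, rfl⟩
    | right => exact ⟨right, rfl⟩
    | oracle g' hg' =>
      have hg2 : g' = g := hg'
      subst hg2
      exact ⟨oracle, rfl⟩
    | pair _ _ h1 h2 =>
      obtain ⟨a, rfl⟩ := h1
      obtain ⟨b, rfl⟩ := h2
      exact ⟨pair a b, seq_eq _ _⟩
    | comp _ _ h1 h2 =>
      obtain ⟨a, rfl⟩ := h1
      obtain ⟨b, rfl⟩ := h2
      exact ⟨comp a b, rfl⟩
    | prec _ _ h1 h2 =>
      obtain ⟨a, rfl⟩ := h1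
      obtain ⟨b, rfl⟩ := h2
      exact ⟨prec a b, rfl⟩
    | rfind _ h1 =>
      obtain ⟨a, rfl⟩ := h1
      exact ⟨rfind a, rfl⟩
  · rintro ⟨c, rfl⟩
    induction c with
    | zero => exact .zero
    | succ => exact .succ
    | left => exact .left
    | right => exact .right
    | oracle => exact .oracle g (Set.mem_singleton g)
    | pair a b h1 h2 =>
      have := Nat.RecursiveIn.pair h1 h2
      rw [← seq_eq] at this
      exact this
    | comp a b h1 h2 => exact .comp h1 h2
    | prec a b h1 h2 => exact .prec h1 h2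
    | rfind a h1 => exact .rfind h1

/-- Every partial recursive function is the evaluation of a code that ignores the oracle. -/
theorem exists_of_partrec {f : ℕ → Part ℕ} (hf : Nat.Partrec f) :
    ∃ c : OC, ∀ g, c.eval g = f := by
  induction hf with
  | zero => exact ⟨zero, fun _ => rfl⟩
  | succ => exact ⟨succ, fun _ => rfl⟩
  | left => exact ⟨left, fun _ => rfl⟩
  | right => exact ⟨right, fun _ => rfl⟩
  | pair _ _ h1 h2 =>
    obtain ⟨a, ha⟩ := h1
    obtain ⟨b, hb⟩ := h2
    exact ⟨pair a b, fun g => by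
      have := seq_eq (a.eval g) (b.eval g)
      rw [ha, hb] at this
      simp only [eval, ha, hb]
      exact this⟩
  | comp _ _ h1 h2 =>
    obtain ⟨a, ha⟩ := h1
    obtain ⟨b, hb⟩ := h2
    exact ⟨comp a b, fun g => by simp only [eval, ha, hb]; rfl⟩
  | prec _ _ h1 h2 =>
    obtain ⟨a, ha⟩ := h1
    obtain ⟨b, hb⟩ := h2
    exact ⟨prec a b, fun g => by simp only [eval, ha, hb]; rfl⟩
  | rfind _ h1 =>
    obtain ⟨a, ha⟩ := h1
    exact ⟨rfind a, fun g => by simp only [eval, ha]; rfl⟩

/-- Substitution of a code for the oracle. -/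
def subst (d : OC) : OC → OC
  | zero => zero
  | succ => succ
  | left => left
  | right => right
  | oracle => d
  | pair a b => pair (subst d a) (subst d b)
  | comp a b => comp (subst d a) (subst d b)
  | prec a b => prec (subst d a) (subst d b)
  | rfind a => rfind (subst d a)

theorem eval_subst (d c : OC) (g : ℕ → Part ℕ) :
    (subst d c).eval g = c.eval (d.eval g) := by
  induction c with
  | zero => rfl
  | succ => rfl
  | left => rfl
  | right => rfl
  | oracle => rfl
  | pair a b h1 h2 => simp only [subst, eval, h1, h2]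
  | comp a b h1 h2 => simp only [subst, eval, h1, h2]
  | prec a b h1 h2 => simp only [subst, eval, h1, h2]
  | rfind a h1 => simp only [subst, eval, h1]

theorem mem_eval_rfind {g : ℕ → Part ℕ} {a : OC} {n x : ℕ} :
    x ∈ (rfind a).eval g n ↔ (∃ u, u ∈ a.eval g (Nat.pair n x) ∧ decide (u = 0) = true) ∧
      ∀ m, m < x → ∃ v, v ∈ a.eval g (Nat.pair n m) ∧ decide (v = 0) = false := by
  constructor
  · intro hx
    have hx' := Nat.mem_rfind.mp hx
    refine ⟨(Part.mem_map_iff _).mp hx'.1, fun m hm => (Part.mem_map_iff _).mp (hx'.2 hm)⟩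
  · intro hx
    exact Nat.mem_rfind.mpr ⟨(Part.mem_map_iff _).mpr hx.1,
      fun {m} hm => (Part.mem_map_iff _).mpr (hx.2 m hm)⟩

/-- Evaluation is monotone in the partial oracle. -/
theorem eval_mono {g g' : ℕ → Part ℕ} (h : ∀ n b, b ∈ g n → b ∈ g' n) (c : OC) :
    ∀ n b, b ∈ c.eval g n → b ∈ c.eval g' n := by
  induction c with
  | zero => exact fun n b hb => hb
  | succ => exact fun n b hb => hb
  | left => exact fun n b hb => hb
  | right => exact fun n b hb => hb
  | oracle => exact h
  | pair a b h1 h2 =>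
    intro n x hx
    simp only [eval, Part.mem_bind_iff, Part.mem_map_iff] at hx ⊢
    obtain ⟨u, hu, v, hv, rfl⟩ := hx
    exact ⟨u, h1 _ _ hu, v, h2 _ _ hv, rfl⟩
  | comp a b h1 h2 =>
    intro n x hx
    simp only [eval, Part.mem_bind_iff] at hx ⊢
    obtain ⟨u, hu, hv⟩ := hx
    exact ⟨u, h2 _ _ hu, h1 _ _ hv⟩
  | prec a b h1 h2 =>
    intro n x hx
    simp only [eval] at hx ⊢
    generalize (Nat.unpair n).2 = m at hx ⊢
    induction m generalizing x with
    | zero => exact h1 _ _ hx
    | succ m ih =>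
      simp only [Part.mem_bind_iff] at hx ⊢
      obtain ⟨u, hu, hv⟩ := hx
      exact ⟨u, ih _ hu, h2 _ _ hv⟩
  | rfind a h1 =>
    intro n x hx
    rw [mem_eval_rfind] at hx ⊢
    obtain ⟨⟨u, hu, hu'⟩, hx2⟩ := hx
    refine ⟨⟨u, h1 _ _ hu, hu'⟩, fun m hm => ?_⟩
    obtain ⟨v, hv, hv'⟩ := hx2 m hm
    exact ⟨v, h1 _ _ hv, hv'⟩

/-- Restriction of an oracle to arguments below `s`. -/
def res (g : ℕ → Part ℕ) (s : ℕ) : ℕ → Part ℕ := fun n => if n < s then g n else Part.none

theorem res_le (g : ℕ → Part ℕ) (s : ℕ) : ∀ n b, b ∈ res g s n → b ∈ g n := by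
  intro n b hb
  unfold res at hb
  split_ifs at hb with h
  · exact hb
  · exact absurd hb (Part.notMem_none b)

theorem res_mono (g : ℕ → Part ℕ) {s t : ℕ} (hst : s ≤ t) :
    ∀ n b, b ∈ res g s n → b ∈ res g t n := by
  intro n b hb
  unfold res at hb ⊢
  split_ifs at hb with h
  · rw [if_pos (lt_of_lt_of_le h hst)]
    exact hb
  · exact absurd hb (Part.notMem_none b)

/-- Use principle. -/
theorem eval_use (g : ℕ → Part ℕ) (c : OC) :
    ∀ n b, b ∈ c.eval g n → ∃ s, b ∈ c.eval (res g s) n := by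
  induction c with
  | zero => exact fun n b hb => ⟨0, hb⟩
  | succ => exact fun n b hb => ⟨0, hb⟩
  | left => exact fun n b hb => ⟨0, hb⟩
  | right => exact fun n b hb => ⟨0, hb⟩
  | oracle =>
    intro n b hb
    refine ⟨n + 1, ?_⟩
    show b ∈ res g (n + 1) n
    unfold res
    rw [if_pos (Nat.lt_succ_self n)]
    exact hb
  | pair a b h1 h2 =>
    intro n x hx
    simp only [eval, Part.mem_bind_iff, Part.mem_map_iff] at hx ⊢
    obtain ⟨u, hu, v, hv, rfl⟩ := hx
    obtain ⟨s, hs⟩ := h1 _ _ hu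
    obtain ⟨t, ht⟩ := h2 _ _ hv
    exact ⟨max s t, u, eval_mono (res_mono g (le_max_left s t)) _ _ _ hs, v,
      eval_mono (res_mono g (le_max_right s t)) _ _ _ ht, rfl⟩
  | comp a b h1 h2 =>
    intro n x hx
    simp only [eval, Part.mem_bind_iff] at hx ⊢
    obtain ⟨u, hu, hv⟩ := hx
    obtain ⟨s, hs⟩ := h2 _ _ hu
    obtain ⟨t, ht⟩ := h1 _ _ hv
    exact ⟨max s t, u, eval_mono (res_mono g (le_max_left s t)) _ _ _ hs,
      eval_mono (res_mono g (le_max_right s t)) _ _ _ ht⟩
  | prec a b h1 h2 =>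
    intro n x hx
    simp only [eval] at hx ⊢
    generalize (Nat.unpair n).2 = m at hx ⊢
    generalize (Nat.unpair n).1 = k at hx ⊢
    induction m generalizing x with
    | zero => exact h1 _ _ hx
    | succ m ih =>
      simp only [Part.mem_bind_iff] at hx ⊢
      obtain ⟨u, hu, hv⟩ := hx
      obtain ⟨s, hs⟩ := ih _ hu
      obtain ⟨t, ht⟩ := h2 _ _ hv
      refine ⟨max s t, u, ?_, eval_mono (res_mono g (le_max_right s t)) _ _ _ ht⟩
      have hmono := eval_mono (res_mono g (le_max_left s t)) (prec a b) (Nat.pair k m) u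
      simp only [eval, Nat.unpair_pair] at hmono
      exact hmono hs
  | rfind a h1 =>
    intro n x hx
    simp only [mem_eval_rfind] at hx ⊢
    obtain ⟨⟨u, hu, hu'⟩, hx2⟩ := hx
    have hx3 : ∀ m, m < x → ∃ s, ∃ v, v ∈ a.eval (res g s) (Nat.pair n m) ∧
        decide (v = 0) = false := by
      intro m hm
      obtain ⟨v, hv, hv'⟩ := hx2 m hm
      obtain ⟨s, hs⟩ := h1 _ _ hv
      exact ⟨s, v, hs, hv'⟩
    obtain ⟨s0, hs0⟩ := h1 _ _ hu
    have hbd : ∀ y, y ≤ x → ∃ s, ∀ m, m < y → ∃ v, v ∈ a.eval (res g s) (Nat.pair n m) ∧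
        decide (v = 0) = false := by
      intro y
      induction y with
      | zero => exact fun _ => ⟨0, fun m hm => absurd hm (Nat.not_lt_zero m)⟩
      | succ y ih =>
        intro hy
        obtain ⟨s, hs⟩ := ih (by omega)
        obtain ⟨t, v, hv, hv'⟩ := hx3 y (by omega)
        refine ⟨max s t, fun m hm => ?_⟩
        rcases Nat.lt_succ_iff_lt_or_eq.mp hm with h | rfl
        · obtain ⟨w, hw, hw'⟩ := hs m h
          exact ⟨w, eval_mono (res_mono g (le_max_left s t)) _ _ _ hw, hw'⟩
        · exact ⟨v, eval_mono (res_mono g (le_max_right s t)) _ _ _ hv, hv'⟩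
    obtain ⟨s1, hs1⟩ := hbd x le_rfl
    refine ⟨max s0 s1, ⟨u, eval_mono (res_mono g (le_max_left s0 s1)) _ _ _ hs0, hu'⟩,
      fun m hm => ?_⟩
    obtain ⟨v, hv, hv'⟩ := hs1 m hm
    exact ⟨v, eval_mono (res_mono g (le_max_right s0 s1)) _ _ _ hv, hv'⟩

end OC

end Pool.Agent.W_MP_ef54cf_lc
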