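import Pool.Agent.W_MP_ef54cf_lc.Action

/-!
A continuous map from Baire space to Cantor space that reduces `E0` to Turing equivalence and
sends inequivalent points to Turing incomparable points.
-/

namespace Pool.Agent.W_MP_ef54cf_lc

open OC

/-- `x` extends the finite string `σ`. -/
def Pfx (σ : List Bool) (x : ℕ → Bool) : Prop := ∀ i, i < σ.length → x i = σ.getD i false

theorem Pfx.left {σ τ : List Bool} {x : ℕ → Bool} (h : Pfx (σ ++ τ) x) : Pfx σ x := by
  intro i hi
  rw [h i (by rw [List.length_append]; omega), List.getD_append _ _ _ _ hi]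

theorem Pfx.eq {σ τ : List Bool} {x : ℕ → Bool} (h : Pfx σ x) (h' : Pfx τ x)
    (hl : σ.length = τ.length) : σ = τ := by
  apply List.ext_getElem hl
  intro i h1 h2
  have e1 := h i h1
  have e2 := h' i h2
  rw [List.getD_eq_getElem _ _ h1] at e1
  rw [List.getD_eq_getElem _ _ h2] at e2
  rw [← e1, ← e2]

theorem one_step (c : OC) (α β : List Bool) : ∃ δ ε : List Bool, ∀ x v, Pfx (α ++ δ) x →
    Pfx (β ++ ε) v → ¬ Comp c x v := by
  by_cases h : ∃ x, Pfx α x ∧ (c.eval (tot (nat x)) β.length).Dom
  · obtain ⟨x0, hx0, hdom⟩ := h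
    obtain ⟨b, hb⟩ := Part.dom_iff_mem.mp hdom
    obtain ⟨s, hs⟩ := eval_use _ c _ b hb
    refine ⟨(List.range s).map (fun i => x0 (α.length + i)), [decide (b = 0)], ?_⟩
    intro x v hx hv hc
    have hag : agree x0 x s := by
      intro i hi
      by_cases hi' : i < α.length
      · rw [hx.left i hi', hx0 i hi']
      · rw [hx i (by simp; omega), List.getD_append_right _ _ _ _ (by omega)]
        have : i - α.length < s := by omega
        simp only [List.getD_eq_getElem?_getD, List.getElem?_map, List.getElem?_range this]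
        simp only [Option.map_some, Option.getD_some]
        congr 1
        omega
    have h1 : res (tot (nat x0)) s = res (tot (nat x)) s := by
      funext i
      unfold res
      split_ifs with hi
      · unfold tot
        rw [agree_nat hag i hi]
      · rfl
    rw [h1] at hs
    have h2 : b ∈ c.eval (tot (nat x)) β.length := eval_mono (res_le _ s) _ _ _ hs
    rw [hc β.length, Part.mem_some_iff] at h2
    have h3 : v β.length = decide (b = 0) := by
      rw [hv β.length (by simp), List.getD_append_right _ _ _ _ le_rfl]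
      simp
    unfold nat at h2
    rw [h3] at h2
    by_cases hb0 : b = 0
    · subst hb0
      simp at h2
    · simp [hb0] at h2
  · refine ⟨[], [], fun x v hx _ hc => h ⟨x, ?_, ?_⟩⟩
    · simpa using hx
    · rw [hc]
      exact trivial

/-- One diagonalization requirement. -/
def Req (r : OC × List Bool × List Bool × Bool) (blk : Bool → List Bool) : Prop :=
  ∀ x v, Pfx (r.2.1 ++ blk r.2.2.2) x → Pfx (r.2.2.1 ++ blk (!r.2.2.2)) v → ¬ Comp r.1 x v

theorem Req.mono {r : OC × List Bool × List Bool × Bool} {blk blk' : Bool → List Bool}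
    (h : Req r blk) (hb : ∀ a, ∃ s, blk' a = blk a ++ s) : Req r blk' := by
  intro x v hx hv
  obtain ⟨s, hs⟩ := hb r.2.2.2
  obtain ⟨t, ht⟩ := hb (!r.2.2.2)
  rw [hs, ← List.append_assoc] at hx
  rw [ht, ← List.append_assoc] at hv
  exact h x v hx.left hv.left

theorem exists_blk (L : List (OC × List Bool × List Bool × Bool)) (blk0 : Bool → List Bool) :
    ∃ blk : Bool → List Bool, (∀ a, ∃ s, blk a = blk0 a ++ s) ∧ ∀ r ∈ L, Req r blk := by
  induction L with
  | nil => exact ⟨blk0, fun a => ⟨[], by simp⟩, by simp⟩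
  | cons r L ih =>
    obtain ⟨blk1, h1, h2⟩ := ih
    obtain ⟨δ, ε, h3⟩ := one_step r.1 (r.2.1 ++ blk1 r.2.2.2) (r.2.2.1 ++ blk1 (!r.2.2.2))
    let blk : Bool → List Bool := fun b => if b = r.2.2.2 then blk1 b ++ δ else blk1 b ++ ε
    have hext : ∀ a, ∃ s, blk a = blk1 a ++ s := by
      intro a
      by_cases ha : a = r.2.2.2
      · exact ⟨δ, by simp [blk, ha]⟩
      · exact ⟨ε, by simp [blk, ha]⟩
    refine ⟨blk, ?_, ?_⟩
    · intro a
      obtain ⟨s, hs⟩ := hext a
      obtain ⟨t, ht⟩ := h1 a
      exact ⟨t ++ s, by rw [hs, ht, List.append_assoc]⟩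
    · intro r' hr'
      rcases List.mem_cons.mp hr' with rfl | hr'
      · intro x v hx hv
        have e1 : blk r'.2.2.2 = blk1 r'.2.2.2 ++ δ := by simp [blk]
        have e2 : blk (!r'.2.2.2) = blk1 (!r'.2.2.2) ++ ε := by simp [blk]
        rw [e1, ← List.append_assoc] at hx
        rw [e2, ← List.append_assoc] at hv
        exact h3 x v hx hv
      · exact (h2 r' hr').mono hext

/-- An enumeration of all codes. -/
theorem exists_enum : ∃ cd : ℕ → OC, Function.Surjective cd := by
  have : Nonempty OC := ⟨OC.zero⟩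
  exact exists_surjective_nat OC

/-- A fixed enumeration of all codes. -/
noncomputable def cd : ℕ → OC := Classical.choose exists_enum

theorem cd_surj : Function.Surjective cd := Classical.choose_spec exists_enum

theorem exists_level (W : Finset (List Bool)) (n : ℕ) : ∃ blk : Bool → List Bool,
    (blk false).length = (blk true).length ∧ 0 < (blk false).length ∧ blk false ≠ blk true ∧
    ∀ e, e ≤ n → ∀ w ∈ W, ∀ w' ∈ W, ∀ a, Req (cd e, w, w', a) blk := by
  obtain ⟨blk1, -, h1⟩ := exists_blk
    (((Finset.range (n + 1) ×ˢ W ×ˢ W ×ˢ (Finset.univ : Finset Bool)).toList).map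
      (fun q => (cd q.1, q.2.1, q.2.2.1, q.2.2.2))) (fun _ => [])
  let m := max (blk1 false).length (blk1 true).length
  let blk : Bool → List Bool := fun b =>
    (blk1 b ++ List.replicate (m - (blk1 b).length) false) ++ [b]
  have hlen : ∀ b, (blk1 b ++ List.replicate (m - (blk1 b).length) false).length = m := by
    intro b
    have : (blk1 b).length ≤ m := by
      cases b
      · exact le_max_left _ _
      · exact le_max_right _ _
    rw [List.length_append, List.length_replicate]
    omega
  have hlen' : ∀ b, (blk b).length = m + 1 := by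
    intro b
    show ((blk1 b ++ List.replicate (m - (blk1 b).length) false) ++ [b]).length = m + 1
    rw [List.length_append, hlen]
    rfl
  refine ⟨blk, by rw [hlen', hlen'], by rw [hlen']; exact Nat.succ_pos m, ?_, ?_⟩
  · intro h
    have := (List.append_inj h (by rw [hlen, hlen])).2
    simp at this
  · intro e he w hw w' hw' a
    have h2 : Req (cd e, w, w', a) blk1 := by
      apply h1
      rw [List.mem_map]
      refine ⟨(e, w, w', a), ?_, rfl⟩
      rw [Finset.mem_toList]
      simp only [Finset.mem_product, Finset.mem_range, Finset.mem_univ, and_true]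
      exact ⟨by omega, hw, hw'⟩
    refine h2.mono (fun b => ⟨List.replicate (m - (blk1 b).length) false ++ [b], ?_⟩)
    show (blk1 b ++ List.replicate (m - (blk1 b).length) false) ++ [b] = _
    rw [List.append_assoc]

/-- The block chosen for a level. -/
noncomputable def blkOf (W : Finset (List Bool)) (n : ℕ) : Bool → List Bool :=
  Classical.choose (exists_level W n)

/-- The finite set of strings at a level. -/
noncomputable def WW : ℕ → Finset (List Bool)
  | 0 => {[]}
  | n + 1 => (WW n ×ˢ (Finset.univ : Finset Bool)).image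
      (fun q => q.1 ++ blkOf (WW n) n q.2)

/-- The blocks. -/
noncomputable def blk (n : ℕ) : Bool → List Bool := blkOf (WW n) n

theorem blk_spec (n : ℕ) : (blk n false).length = (blk n true).length ∧
    0 < (blk n false).length ∧ blk n false ≠ blk n true ∧
    ∀ e, e ≤ n → ∀ w ∈ WW n, ∀ w' ∈ WW n, ∀ a, Req (cd e, w, w', a) (blk n) :=
  Classical.choose_spec (exists_level (WW n) n)

theorem blk_length (n : ℕ) (a b : Bool) : (blk n a).length = (blk n b).length := by
  have := (blk_spec n).1
  cases a <;> cases b <;> simp [this]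

theorem blk_pos (n : ℕ) (a : Bool) : 0 < (blk n a).length := by
  rw [blk_length n a false]
  exact (blk_spec n).2.1

theorem blk_inj (n : ℕ) {a b : Bool} (h : blk n a = blk n b) : a = b := by
  have := (blk_spec n).2.2.1
  cases a <;> cases b <;> simp_all

/-- Concatenation of the first `n` blocks along `p`. -/
noncomputable def Cat (p : ℕ → Bool) : ℕ → List Bool
  | 0 => []
  | n + 1 => Cat p n ++ blk n (p n)

theorem Cat_mem (p : ℕ → Bool) (n : ℕ) : Cat p n ∈ WW n := by
  induction n with
  | zero => simp [Cat, WW]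
  | succ n ih =>
    simp only [Cat, WW, Finset.mem_image]
    exact ⟨(Cat p n, p n), by simp [ih], rfl⟩

theorem Cat_length (p q : ℕ → Bool) (n : ℕ) : (Cat p n).length = (Cat q n).length := by
  induction n with
  | zero => rfl
  | succ n ih => simp only [Cat, List.length_append, ih, blk_length n (p n) (q n)]

theorem le_Cat_length (p : ℕ → Bool) (n : ℕ) : n ≤ (Cat p n).length := by
  induction n with
  | zero => exact Nat.zero_le _
  | succ n ih =>
    simp only [Cat, List.length_append]
    have := blk_pos n (p n)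
    omega

theorem Cat_append (p : ℕ → Bool) {m n : ℕ} (h : m ≤ n) : ∃ s, Cat p n = Cat p m ++ s := by
  induction n, h using Nat.le_induction with
  | base => exact ⟨[], by simp⟩
  | succ n _ ih =>
    obtain ⟨s, hs⟩ := ih
    exact ⟨s ++ blk n (p n), by simp only [Cat, hs, List.append_assoc]⟩

theorem Cat_congr {p q : ℕ → Bool} {n : ℕ} (h : agree p q n) : Cat p n = Cat q n := by
  induction n with
  | zero => rfl
  | succ n ih =>
    simp only [Cat]
    rw [ih (h.mono (Nat.le_succ n)), h n (Nat.lt_succ_self n)]

/-- The reduction on Cantor space. -/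
noncomputable def J2 (p : ℕ → Bool) : ℕ → Bool := fun i => (Cat p (i + 1)).getD i false

theorem J2_eq (p : ℕ → Bool) {i n : ℕ} (h : i < (Cat p n).length) :
    J2 p i = (Cat p n).getD i false := by
  unfold J2
  rcases le_total (i + 1) n with h' | h'
  · obtain ⟨s, hs⟩ := Cat_append p h'
    rw [hs, List.getD_append _ _ _ _ (le_Cat_length p (i + 1))]
  · obtain ⟨s, hs⟩ := Cat_append p h'
    rw [hs, List.getD_append _ _ _ _ h]

theorem pfx_Cat (p : ℕ → Bool) (n : ℕ) : Pfx (Cat p n) (J2 p) := fun _ hi => J2_eq p hi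

theorem J2_incomparable {p q : ℕ → Bool} (h : ¬ E0 p q) (c : OC) : ¬ Comp c (J2 p) (J2 q) := by
  obtain ⟨e, rfl⟩ := cd_surj c
  unfold E0 at h
  push Not at h
  obtain ⟨n, hn, hne⟩ := h e
  have h1 := (blk_spec n).2.2.2 e hn (Cat p n) (Cat_mem p n) (Cat q n) (Cat_mem q n) (p n)
  refine h1 (J2 p) (J2 q) (pfx_Cat p (n + 1)) ?_
  have h2 : (!(p n)) = q n := by
    cases hp : p n <;> cases hq : q n <;> simp_all
  simp only [h2]
  exact pfx_Cat q (n + 1)

theorem J2_E0 {p q : ℕ → Bool} (h : E0 p q) : E0 (J2 p) (J2 q) := by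
  obtain ⟨N, hN⟩ := h
  refine ⟨(Cat p N).length, fun i hi => ?_⟩
  have hext : ∀ n, N ≤ n → ∃ s, Cat p n = Cat p N ++ s ∧ Cat q n = Cat q N ++ s := by
    intro n hn
    induction n, hn using Nat.le_induction with
    | base => exact ⟨[], by simp, by simp⟩
    | succ n hn ih =>
      obtain ⟨s, h1, h2⟩ := ih
      refine ⟨s ++ blk n (p n), ?_, ?_⟩
      · simp only [Cat, h1, List.append_assoc]
      · simp only [Cat, h2, List.append_assoc, hN n hn]
  obtain ⟨s, h1, h2⟩ := hext (max N (i + 1)) (le_max_left _ _)
  have hlt : ∀ r : ℕ → Bool, i < (Cat r (max N (i + 1))).length := fun r =>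
    lt_of_lt_of_le (lt_of_lt_of_le (Nat.lt_succ_self i) (le_max_right N (i + 1)))
      (le_Cat_length r _)
  rw [J2_eq p (hlt p), J2_eq q (hlt q), h1, h2, List.getD_append_right _ _ _ _ hi,
    List.getD_append_right _ _ _ _ (by rw [Cat_length q p]; exact hi), Cat_length q p]

theorem J2_agree {p q : ℕ → Bool} {n : ℕ} (h : agree p q n) : agree (J2 p) (J2 q) n := by
  intro i hi
  unfold J2
  rw [Cat_congr (h.mono hi)]

theorem J2_injective : Function.Injective J2 := by
  intro p q h
  have key : ∀ n, agree p q n := by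
    intro n
    induction n with
    | zero => exact fun i hi => absurd hi (Nat.not_lt_zero i)
    | succ n ih =>
      have h1 := pfx_Cat p (n + 1)
      have h2 := pfx_Cat q (n + 1)
      rw [← h] at h2
      have h3 := h1.eq h2 (Cat_length p q (n + 1))
      simp only [Cat] at h3
      have h4 := (List.append_inj h3 (Cat_length p q n)).2
      intro i hi
      rcases Nat.lt_succ_iff_lt_or_eq.mp hi with h5 | rfl
      · exact ih i h5
      · exact blk_inj _ h4
  funext n
  exact key (n + 1) n (Nat.lt_succ_self n)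

/-- The characteristic function of the graph. -/
def graph (u : ℕ → ℕ) : ℕ → Bool := fun m => decide (u m.unpair.1 = m.unpair.2)

theorem graph_E0 {u v : ℕ → ℕ} (h : E0 u v) : E0 (graph u) (graph v) := by
  obtain ⟨N, hN⟩ := h
  -- a bound for the codes of the pairs with first component below `N`
  have hb : ∀ M, ∃ B, ∀ n, n < M → Nat.pair n (u n) < B ∧ Nat.pair n (v n) < B := by
    intro M
    induction M with
    | zero => exact ⟨0, fun n hn => absurd hn (Nat.not_lt_zero n)⟩
    | succ M ih =>
      obtain ⟨B, hB⟩ := ih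
      refine ⟨max B (max (Nat.pair M (u M) + 1) (Nat.pair M (v M) + 1)), fun n hn => ?_⟩
      rcases Nat.lt_succ_iff_lt_or_eq.mp hn with h | rfl
      · obtain ⟨h1, h2⟩ := hB n h
        constructor <;> omega
      · constructor <;> omega
  obtain ⟨B, hB⟩ := hb N
  refine ⟨B, fun m hm => ?_⟩
  unfold graph
  by_cases hmN : m.unpair.1 < N
  · obtain ⟨h1, h2⟩ := hB _ hmN
    have e1 : u m.unpair.1 ≠ m.unpair.2 := by
      intro he
      rw [he, Nat.pair_unpair] at h1
      omega
    have e2 : v m.unpair.1 ≠ m.unpair.2 := by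
      intro he
      rw [he, Nat.pair_unpair] at h2
      omega
    simp [e1, e2]
  · rw [hN m.unpair.1 (by omega)]

theorem E0_of_graph {u v : ℕ → ℕ} (h : E0 (graph u) (graph v)) : E0 u v := by
  obtain ⟨N, hN⟩ := h
  refine ⟨N, fun n hn => ?_⟩
  have h1 := hN (Nat.pair n (u n)) (le_trans hn (Nat.left_le_pair _ _))
  unfold graph at h1
  simp only [Nat.unpair_pair, decide_true] at h1
  exact (of_decide_eq_true h1.symm).symm

theorem graph_injective : Function.Injective graph := by
  intro u v h
  funext n
  have h1 := congrFun h (Nat.pair n (u n))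
  unfold graph at h1
  simp only [Nat.unpair_pair, decide_true] at h1
  exact (of_decide_eq_true h1.symm).symm

/-- The reduction of `E0` on Baire space to Turing equivalence. -/
noncomputable def JJ (u : ℕ → ℕ) : ℕ → Bool := J2 (graph u)

theorem JJ_injective : Function.Injective JJ := J2_injective.comp graph_injective

theorem JJ_TE {u v : ℕ → ℕ} (h : E0 u v) : TE (JJ u) (JJ v) := TE.of_E0 (J2_E0 (graph_E0 h))

theorem E0_of_JJ {u v : ℕ → ℕ} (h : TR (nat (JJ u)) (nat (JJ v))) : E0 u v := by
  by_contra hne
  obtain ⟨c, hc⟩ := TR_iff.mp h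
  exact J2_incomparable (fun h' => hne (E0_of_graph h').symm) c hc

theorem JJ_agree {u v : ℕ → ℕ} {n : ℕ} (h : agree u v n) : agree (JJ u) (JJ v) n := by
  apply J2_agree
  intro i hi
  unfold graph
  rw [h _ (lt_of_le_of_lt (Nat.unpair_left_le i) hi)]

end Pool.Agent.W_MP_ef54cf_lc
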